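import Pool.Agent.R7.Tree

set_option autoImplicit false

/-!
# Consequences of 7-connectivity, and a way to find complete minors on six vertices
-/

namespace Pool.Agent.R7

open SimpleGraph Pool.Agent.TreewidthMinor Pool.Agent.K6

variable {V W : Type}

/-- Deleting fewer than seven vertices leaves a connected graph. -/
def Con7 (G : SimpleGraph V) : Prop := ∀ S : Set V, S.ncard < 7 → SC G Sᶜ

theorem walk_stay {G : SimpleGraph V} {X S : Set V}
    (hN : ∀ a ∈ X, ∀ b, G.Adj a b → b ∈ X ∨ b ∈ S) :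
    ∀ {x y : V} (w : G.Walk x y), x ∈ X → (∀ z ∈ w.support, z ∉ S) → y ∈ X := by
  intro x y w
  induction w with
  | nil => intro hx _; exact hx
  | cons h p ih =>
    intro hx hw
    refine ih ?_ ?_
    · rcases hN _ hx _ h with h' | h'
      · exact h'
      · exfalso
        refine hw _ ?_ h'
        rw [Walk.support_cons]
        exact List.mem_cons_of_mem _ p.start_mem_support
    · intro z hz
      refine hw z ?_
      rw [Walk.support_cons]
      exact List.mem_cons_of_mem _ hz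

/-- A small set does not separate. -/
theorem sep {G : SimpleGraph V} (hG : Con7 G) {X S : Set V} {x y : V} (hx : x ∈ X)
    (hXS : Disjoint X S) (hS : S.ncard < 7) (hy : y ∉ X) (hy' : y ∉ S)
    (hN : ∀ a ∈ X, ∀ b, G.Adj a b → b ∈ X ∨ b ∈ S) : False := by
  obtain ⟨-, h⟩ := hG S hS
  obtain ⟨w, hw⟩ := h x (fun h => Set.disjoint_left.1 hXS hx h) y hy'
  exact hy (walk_stay hN w hx hw)

/-- Every vertex of a set of at most seven vertices which separates a set `R` is attached to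
`R`. -/
theorem attach [Finite V] {G : SimpleGraph V} (hG : Con7 G) {R A : Set V} {z : V}
    (hR : R.Nonempty) (hRA : Disjoint R A) (hz : z ∉ R) (hz' : z ∉ A) (hA : A.ncard ≤ 7)
    (hN : ∀ a ∈ R, ∀ b, G.Adj a b → b ∈ R ∨ b ∈ A) : ∀ a ∈ A, ∃ r ∈ R, G.Adj a r := by
  intro a ha
  by_contra hcon
  push Not at hcon
  obtain ⟨r, hr⟩ := hR
  have h1 : (A \ {a}).ncard < 7 := by
    rw [Set.ncard_sdiff_singleton_of_mem ha]
    omega
  refine sep hG (S := A \ {a}) hr ?_ h1 hz (fun h => hz' h.1) ?_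
  · exact hRA.mono_right Set.sdiff_subset
  · intro b hb d hbd
    rcases hN b hb d hbd with h | h
    · exact Or.inl h
    · refine Or.inr ⟨h, ?_⟩
      intro hd
      rw [Set.mem_singleton_iff] at hd
      subst hd
      exact hcon b hb hbd.symm

/-- The rest of the graph outside a closed neighbourhood has a connected piece. -/
theorem piece {G : SimpleGraph V} {h r : V} (hr : r ≠ h ∧ ¬ G.Adj h r) :
    ∃ R : Set V, SC G R ∧ r ∈ R ∧ (∀ x ∈ R, x ≠ h ∧ ¬ G.Adj h x) ∧
      ∀ a ∈ R, ∀ b, G.Adj a b → b ∈ R ∨ G.Adj h b := by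
  have hr' : r ∈ {x | x ≠ h ∧ ¬ G.Adj h x} := hr
  refine ⟨compo G {x | x ≠ h ∧ ¬ G.Adj h x} r, compo_sc hr', ?_, ?_, ?_⟩
  · exact ⟨Walk.nil, by
      intro z hz
      rw [Walk.support_nil, List.mem_singleton] at hz
      rw [hz]; exact hr'⟩
  · intro x hx
    have h1 : x ∈ {x | x ≠ h ∧ ¬ G.Adj h x} := compo_sub hx
    exact h1
  · intro a ha b hab
    by_cases hb : G.Adj h b
    · exact Or.inr hb
    · left
      refine compo_adj ha ⟨?_, hb⟩ hab
      rintro rfl
      have h1 : a ∈ {x | x ≠ b ∧ ¬ G.Adj b x} := compo_sub ha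
      exact h1.2 hab.symm

/-- The graph with the edges from `c` to all other vertices of `T` added. -/
def plus (G : SimpleGraph V) (c : V) (T : Set V) : SimpleGraph V where
  Adj x y := G.Adj x y ∨ (x ≠ y ∧ ((x = c ∧ y ∈ T) ∨ (y = c ∧ x ∈ T)))
  symm := ⟨fun x y h => by
    rcases h with h | ⟨h, h' | h'⟩
    · exact Or.inl h.symm
    · exact Or.inr ⟨h.symm, Or.inr h'⟩
    · exact Or.inr ⟨h.symm, Or.inl h'⟩⟩
  loopless := ⟨fun x h => by
    rcases h with h | h
    · exact G.irrefl h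
    · exact h.1 rfl⟩

/-- A complete minor in a neighbourhood with edges added by contracting an outside piece. -/
theorem star_minor {G : SimpleGraph V} {h c : V} {R T : Set V}
    (hR : SC G R) (hRh : ∀ x ∈ R, x ≠ h ∧ ¬ G.Adj h x) (hcR : ∃ r ∈ R, G.Adj c r)
    (hT : ∀ t ∈ T, ∃ r ∈ R, G.Adj t r)
    (hm : IsMinor (⊤ : SimpleGraph (Fin 5)) ((plus G c T).induce (nb G h))) :
    IsMinor (⊤ : SimpleGraph (Fin 6)) G := by
  classical
  obtain ⟨B, hB⟩ : ∃ B : nb G h → Set V, B = fun x => if x.1 = c then {x.1} ∪ R else {x.1} :=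
    ⟨_, rfl⟩
  have Bc : ∀ x : nb G h, x.1 = c → B x = {x.1} ∪ R := by
    intro x hx; simp only [hB, hx, if_true]
  have Bn : ∀ x : nb G h, x.1 ≠ c → B x = {x.1} := by
    intro x hx; simp only [hB, hx, if_false]
  have Bself : ∀ x, x.1 ∈ B x := by
    intro x
    by_cases hx : x.1 = c
    · rw [Bc x hx]; exact Or.inl rfl
    · rw [Bn x hx]; rfl
  have hnR : ∀ x : nb G h, x.1 ∉ R := fun x hx => (hRh _ hx).2 x.2
  refine cone B ?_ ?_ ?_ {h} (SC.singleton G h) ?_ ?_ hm
  · intro x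
    by_cases hx : x.1 = c
    · rw [Bc x hx]
      obtain ⟨r, hr, hcr⟩ := hcR
      exact SC.union_adj (SC.singleton G _) hR rfl hr (by rw [hx]; exact hcr)
    · rw [Bn x hx]; exact SC.singleton G _
  · intro x y hxy
    have hne' : x.1 ≠ y.1 := fun h => hxy (Subtype.ext h)
    rw [Set.disjoint_left]
    intro z hz hz'
    by_cases hx : x.1 = c
    · have hy : y.1 ≠ c := fun h => hne' (hx.trans h.symm)
      rw [Bn y hy, Set.mem_singleton_iff] at hz'
      rw [Bc x hx] at hz
      rcases hz with hz | hz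
      · exact hne' ((Set.mem_singleton_iff.1 hz).symm.trans hz')
      · rw [hz'] at hz; exact hnR y hz
    · rw [Bn x hx, Set.mem_singleton_iff] at hz
      by_cases hy : y.1 = c
      · rw [Bc y hy] at hz'
        rcases hz' with hz' | hz'
        · exact hne' (hz.symm.trans (Set.mem_singleton_iff.1 hz'))
        · rw [hz] at hz'; exact hnR x hz'
      · rw [Bn y hy, Set.mem_singleton_iff] at hz'
        exact hne' (hz.symm.trans hz')
  · intro x y hxy
    have hxy' : G.Adj x.1 y.1 ∨ (x.1 ≠ y.1 ∧ ((x.1 = c ∧ y.1 ∈ T) ∨ (y.1 = c ∧ x.1 ∈ T))) := hxy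
    rcases hxy' with h1 | ⟨-, ⟨h1, h2⟩ | ⟨h1, h2⟩⟩
    · exact ⟨x.1, Bself x, y.1, Bself y, h1⟩
    · obtain ⟨r, hr, hyr⟩ := hT _ h2
      refine ⟨r, ?_, y.1, Bself y, hyr.symm⟩
      rw [Bc x h1]; exact Or.inr hr
    · obtain ⟨r, hr, hxr⟩ := hT _ h2
      refine ⟨x.1, Bself x, r, ?_, hxr⟩
      rw [Bc y h1]; exact Or.inr hr
  · intro x
    rw [Set.disjoint_singleton_right]
    intro hvx
    have hx0 : x.1 ≠ h := (G.ne_of_adj x.2).symm
    by_cases hx : x.1 = c
    · rw [Bc x hx] at hvx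
      rcases hvx with h' | h'
      · exact hx0 (Set.mem_singleton_iff.1 h').symm
      · exact (hRh _ h').1 rfl
    · rw [Bn x hx, Set.mem_singleton_iff] at hvx
      exact hx0 hvx.symm
  · intro x
    exact ⟨x.1, Bself x, h, rfl, (show G.Adj h x.1 from x.2).symm⟩

/-- No complete subgraph on five vertices. -/
theorem no_five [Finite V] {G : SimpleGraph V} (hG : Con7 G)
    (hdeg : ∀ v, 7 ≤ (nb G v).ncard) (hK : ¬ IsMinor (⊤ : SimpleGraph (Fin 6)) G)
    (s : Set V) (hs : s.ncard = 5) (h : ∀ x ∈ s, ∀ y ∈ s, x ≠ y → G.Adj x y) : False := by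
  classical
  apply hK
  have hc : IsMinor (⊤ : SimpleGraph (Fin 5)) (G.induce s) := by
    refine clique_minor _ Set.univ 5 (Set.toFinite _) ?_ ?_
    · rw [Set.ncard_univ, Nat.card_coe_set_eq, hs]
    · rintro ⟨x, hx⟩ - ⟨y, hy⟩ - hxy
      exact h x hx y hy (fun e => hxy (Subtype.ext e))
  refine cone (G' := G.induce s) (fun x => {x.1}) (fun x => SC.singleton G _) ?_ ?_ sᶜ
    (hG s (by omega)) ?_ ?_ hc
  · intro x y hxy
    rw [Set.disjoint_singleton]
    exact fun h => hxy (Subtype.ext h)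
  · intro x y hxy
    exact ⟨x.1, rfl, y.1, rfl, hxy⟩
  · intro x
    rw [Set.disjoint_singleton_left]
    exact fun h => h x.2
  · intro x
    have h1 := hdeg x.1
    have h2 : ∃ w, w ∈ nb G x.1 ∧ w ∉ s := by
      by_contra hcon
      push Not at hcon
      have := Set.ncard_le_ncard (s := nb G x.1) (t := s) hcon (Set.toFinite _)
      omega
    obtain ⟨w, hw, hw'⟩ := h2
    exact ⟨x.1, rfl, w, hw', hw⟩

end Pool.Agent.R7
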