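import Pool.Agent.R7.Hub

set_option autoImplicit false

/-!
# Degrees into finite sets, numerical lemmas
-/

namespace Pool.Agent.R7

open SimpleGraph Pool.Agent.TreewidthMinor Pool.Agent.K6

variable {V W : Type}

open scoped Classical in
/-- the number of neighbours in a finite set -/
noncomputable def dg (G : SimpleGraph V) (S : Finset V) (u : V) : ℕ :=
  (S.filter fun w => G.Adj u w).card

theorem dg_union {G : SimpleGraph V} {A B : Finset V} (h : Disjoint A B) (u : V)
    [DecidableEq V] : dg G (A ∪ B) u = dg G A u + dg G B u := by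
  classical
  unfold dg
  rw [Finset.filter_union, Finset.card_union_of_disjoint]
  exact Finset.disjoint_filter_filter h

theorem sum_dg_comm (G : SimpleGraph V) (A B : Finset V) :
    ∑ b ∈ B, dg G A b = ∑ a ∈ A, dg G B a := by
  classical
  unfold dg
  simp only [Finset.card_filter]
  rw [Finset.sum_comm]
  refine Finset.sum_congr rfl fun a _ => Finset.sum_congr rfl fun b _ => ?_
  simp only [G.adj_comm]

theorem dg_le (G : SimpleGraph V) (S : Finset V) (u : V) : dg G S u ≤ S.card := by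
  classical
  exact Finset.card_filter_le _ _

theorem dg_mono {G : SimpleGraph V} {S T : Finset V} (h : S ⊆ T) (u : V) :
    dg G S u ≤ dg G T u := by
  classical
  exact Finset.card_le_card (Finset.filter_subset_filter _ h)

theorem dg_singleton (G : SimpleGraph V) (a u : V) [Decidable (G.Adj u a)] :
    dg G {a} u = if G.Adj u a then 1 else 0 := by
  classical
  unfold dg
  rw [Finset.filter_singleton]
  split_ifs <;> simp_all

theorem dn_ind [Finite V] (G : SimpleGraph V) (S : Finset V) :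
    dn (G.induce (S : Set V)) = ∑ x ∈ S, dg G S x := by
  classical
  rw [dn_induce]
  have : {x : V × V | G.Adj x.1 x.2 ∧ x.1 ∈ (S : Set V) ∧ x.2 ∈ (S : Set V)} =
      ((S ×ˢ S).filter fun x => G.Adj x.1 x.2 : Finset (V × V)) := by
    ext ⟨a, b⟩
    simp only [Set.mem_ofPred_eq, Finset.mem_coe, Finset.mem_filter, Finset.mem_product]
    tauto
  rw [this, Set.ncard_coe_finset, Finset.card_filter, Finset.sum_product]
  refine Finset.sum_congr rfl fun a _ => ?_
  unfold dg
  rw [Finset.card_filter]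

/-- A counting lemma on seven vertices. -/
theorem numeric (B : Finset V) (x y : V → ℕ) (hB : B.card = 7)
    (hev : Even (∑ b ∈ B, x b + ∑ b ∈ B, y b)) (hE : 10 ≤ ∑ b ∈ B, x b)
    (B1 : Finset V) (hB1 : ∀ b, b ∈ B1 ↔ b ∈ B ∧ 1 ≤ x b) (h6 : 6 ≤ B1.card)
    (h3 : ∀ b ∈ B1, 3 ≤ x b + y b) (h31 : ∀ b ∈ B1, x b + y b = 3 → x b = 1) :
    ∃ c ∈ B, 20 + 2 * y c ≤ ∑ b ∈ B, x b + ∑ b ∈ B, y b := by
  classical
  obtain ⟨c, hc, hmin⟩ := Finset.exists_min_image B y (Finset.card_pos.1 (by omega))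
  refine ⟨c, hc, ?_⟩
  have h7 : 7 * y c ≤ ∑ b ∈ B, y b := by
    have := Finset.card_nsmul_le_sum B y (y c) (fun b hb => hmin b hb)
    rwa [hB, smul_eq_mul] at this
  rcases Nat.lt_or_ge 1 (y c) with hm | hm
  · omega
  by_contra hcon
  push Not at hcon
  have hsub : B1 ⊆ B := fun b hb => ((hB1 b).1 hb).1
  have hcard : B1.card + (B \ B1).card = 7 := by
    rw [← hB, Finset.card_sdiff_of_subset hsub]
    have := Finset.card_le_card hsub
    omega
  have s1 : ∑ b ∈ B, x b = ∑ b ∈ B1, x b := by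
    refine (Finset.sum_subset hsub fun b hb hb' => ?_).symm
    by_contra hx
    exact hb' ((hB1 b).2 ⟨hb, Nat.one_le_iff_ne_zero.2 hx⟩)
  have s2 : ∑ b ∈ B \ B1, y b + ∑ b ∈ B1, y b = ∑ b ∈ B, y b := Finset.sum_sdiff hsub
  have s3 : (B \ B1).card * y c ≤ ∑ b ∈ B \ B1, y b := by
    have := Finset.card_nsmul_le_sum (B \ B1) y (y c)
      (fun b hb => hmin b (Finset.mem_sdiff.1 hb).1)
    rwa [smul_eq_mul] at this
  have s4 : B1.card * 3 ≤ ∑ b ∈ B1, (x b + y b) := by
    have := Finset.card_nsmul_le_sum B1 (fun b => x b + y b) 3 h3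
    rwa [smul_eq_mul] at this
  have s5 : ∑ b ∈ B1, (x b + 8) ≤ ∑ b ∈ B1, 3 * (x b + y b) := by
    refine Finset.sum_le_sum fun b hb => ?_
    have h1 := h3 b hb
    have h2 := h31 b hb
    rcases Nat.lt_or_ge 3 (x b + y b) with h | h
    · omega
    · have := h2 (by omega)
      omega
  rw [Finset.sum_add_distrib, Finset.sum_const, smul_eq_mul] at s5
  rw [← Finset.mul_sum] at s5
  rw [Finset.sum_add_distrib] at s4 s5
  obtain ⟨k, hk⟩ := hev
  rcases Nat.lt_or_ge 6 B1.card with h | h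
  · have h7' : B1.card = 7 := by omega
    rw [h7'] at s4
    omega
  · have h6' : B1.card = 6 := by omega
    have h1' : (B \ B1).card = 1 := by omega
    rw [h6'] at s4 s5
    rw [h1'] at s3
    omega

theorem numericA (B : Finset V) (x y : V → ℕ) (hB : B.card = 7) (hx : 6 ≤ ∑ b ∈ B, x b)
    (hy : 18 ≤ ∑ b ∈ B, y b) : ∃ c ∈ B, 20 + 2 * y c ≤ ∑ b ∈ B, x b + ∑ b ∈ B, y b := by
  classical
  obtain ⟨c, hc, hmin⟩ := Finset.exists_min_image B y (Finset.card_pos.1 (by omega))
  refine ⟨c, hc, ?_⟩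
  have h7 : 7 * y c ≤ ∑ b ∈ B, y b := by
    have := Finset.card_nsmul_le_sum B y (y c) (fun b hb => hmin b hb)
    rwa [hB, smul_eq_mul] at this
  omega

end Pool.Agent.R7
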