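import Pool.Agent.R7.Key

set_option autoImplicit false

/-!
# Complete minors from a hub
-/

namespace Pool.Agent.R7

open SimpleGraph Pool.Agent.TreewidthMinor Pool.Agent.K6

variable {V : Type}

section
variable {G : SimpleGraph V} {h : V} {D B : Finset V}

theorem le_plus (G : SimpleGraph V) (c : V) (T : Set V) : G ≤ plus G c T := fun _ _ h => Or.inl h

theorem dg_le_of_le {G G' : SimpleGraph V} (hle : G ≤ G') (S : Finset V) (u : V) :
    dg G S u ≤ dg G' S u := by
  classical
  refine Finset.card_le_card fun w hw => ?_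
  rw [Finset.mem_filter] at hw ⊢
  exact ⟨hw.1, hle hw.2⟩

open scoped Classical in
theorem Hub.dg_other (H : Hub G h D B) {c b : V} (hc : c ∈ B) (hb : b ∈ B) (hbc : b ≠ c) :
    dg G D b + dg G B b + (if G.Adj c b then 0 else 1) ≤
      dg (plus G c (B : Set V)) (D ∪ B) b := by
  rw [← dg_union H.disj]
  split_ifs with hadj
  · exact dg_le_of_le (le_plus G c _) _ _
  · unfold dg
    have hc' : c ∉ (D ∪ B).filter fun w => G.Adj b w := by
      rw [Finset.mem_filter]
      exact fun hh => hadj hh.2.symm
    rw [← Finset.card_insert_of_notMem hc']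
    refine Finset.card_le_card fun w hw => ?_
    rw [Finset.mem_insert] at hw
    rw [Finset.mem_filter]
    rcases hw with rfl | hw
    · exact ⟨Finset.mem_union_right _ hc, Or.inr ⟨hbc, Or.inr ⟨rfl, hb⟩⟩⟩
    · rw [Finset.mem_filter] at hw
      exact ⟨hw.1, Or.inl hw.2⟩

open scoped Classical in
theorem Hub.dg_centre (H : Hub G h D B) {c : V} (hc : c ∈ B) (hB : B.card = 7) :
    dg G D c + 6 ≤ dg (plus G c (B : Set V)) (D ∪ B) c := by
  have h1 : (B.erase c).card = 6 := by rw [Finset.card_erase_of_mem hc]; omega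
  have h2 : Disjoint (D.filter fun w => G.Adj c w) (B.erase c) :=
    (H.disj.mono_left (Finset.filter_subset _ _)).mono_right (Finset.erase_subset _ _)
  unfold dg
  rw [← h1, ← Finset.card_union_of_disjoint h2]
  refine Finset.card_le_card fun w hw => ?_
  rw [Finset.mem_union] at hw
  rw [Finset.mem_filter]
  rcases hw with hw | hw
  · rw [Finset.mem_filter] at hw
    exact ⟨Finset.mem_union_left _ hw.1, Or.inl hw.2⟩
  · rw [Finset.mem_erase] at hw
    exact ⟨Finset.mem_union_right _ hw.2, Or.inr ⟨fun e => hw.1 e.symm, Or.inl ⟨rfl, hw.2⟩⟩⟩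

open scoped Classical in
theorem missing (G : SimpleGraph V) (B : Finset V) {c : V} (hc : c ∈ B) (hB : B.card = 7) :
    ∑ b ∈ B.erase c, (if G.Adj c b then 0 else 1) + dg G B c = 6 := by
  have h1 : (B.erase c).card = 6 := by rw [Finset.card_erase_of_mem hc]; omega
  have h2 : dg G B c = ∑ b ∈ B.erase c, (if G.Adj c b then 1 else 0) := by
    unfold dg
    rw [← Finset.card_filter]
    congr 1
    ext w
    simp only [Finset.mem_filter, Finset.mem_erase]
    constructor
    · rintro ⟨h1, h2⟩
      exact ⟨⟨fun e => G.irrefl (e ▸ h2 : G.Adj c c), h1⟩, h2⟩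
    · rintro ⟨⟨-, h1⟩, h2⟩
      exact ⟨h1, h2⟩
  rw [h2, ← Finset.sum_add_distrib, ← h1, Finset.card_eq_sum_ones]
  refine Finset.sum_congr rfl fun b _ => ?_
  split_ifs <;> rfl

theorem Hub.minor [Finite V] (H : Hub G h D B) (hG : Con7 G) {r : V}
    (hr : r ≠ h ∧ ¬ G.Adj h r) (hB : B.card = 7) {c : V} (hc : c ∈ B)
    (hs : 20 + 2 * dg G B c ≤ ∑ b ∈ B, dg G D b + ∑ b ∈ B, dg G B b) :
    IsMinor (⊤ : SimpleGraph (Fin 6)) G := by
  classical
  obtain ⟨R, hR, hrR, hRh, hRN⟩ := piece hr
  have hatt := attach hG (R := R) (A := (B : Set V)) (z := h) ⟨r, hrR⟩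
    (by
      rw [Set.disjoint_left]
      intro x hx hx'
      exact (hRh x hx).2 ((H.nbs x).2 (Or.inr hx')))
    (fun hh => (hRh h hh).1 rfl) (fun hh => H.notMem.2 hh)
    (by rw [Set.ncard_coe_finset]; omega)
    (by
      intro a ha b hab
      rcases hRN a ha b hab with h' | h'
      · exact Or.inl h'
      · rcases (H.nbs b).1 h' with h2 | h2
        · exfalso
          rcases H.out h2 hab.symm with h3 | h3
          · exact (hRh a ha).1 h3
          · exact (hRh a ha).2 ((H.nbs a).2 h3)
        · exact Or.inr h2)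
  refine star_minor (c := c) (T := (B : Set V)) hR hRh (hatt c hc) hatt ?_
  rw [H.coe]
  have hcard : (D ∪ B).card = D.card + 7 := by
    rw [Finset.card_union_of_disjoint H.disj, hB]
  have hne : 1 ≤ D.card := Finset.card_pos.2 H.ne
  refine mader5 _ _ ?_ ?_
  · rw [Nat.card_coe_set_eq, Set.ncard_coe_finset, hcard]
    omega
  · rw [Nat.card_coe_set_eq, Set.ncard_coe_finset, hcard, dn_ind,
      Finset.sum_union H.disj, ← Finset.add_sum_erase B _ hc]
    have h1 : D.card * 6 ≤ ∑ x ∈ D, dg (plus G c (B : Set V)) (D ∪ B) x := by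
      have := Finset.card_nsmul_le_sum D (fun x => dg (plus G c (B : Set V)) (D ∪ B) x) 6 ?_
      · rwa [smul_eq_mul] at this
      · intro v hv
        refine le_trans ?_ (dg_le_of_le (le_plus G c _) _ _)
        rw [dg_union H.disj, H.six hv]
    have h2 := H.dg_centre hc hB
    have h3 : ∑ b ∈ B.erase c, (dg G D b + dg G B b + (if G.Adj c b then 0 else 1)) ≤
        ∑ b ∈ B.erase c, dg (plus G c (B : Set V)) (D ∪ B) b :=
      Finset.sum_le_sum fun b hb => H.dg_other hc (Finset.mem_of_mem_erase hb)
        (Finset.ne_of_mem_erase hb)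
    rw [Finset.sum_add_distrib, Finset.sum_add_distrib] at h3
    have h4 := missing G B hc hB
    have h5 := Finset.add_sum_erase B (fun b => dg G D b) hc
    have h6 := Finset.add_sum_erase B (fun b => dg G B b) hc
    omega

/-- A hub with seven other neighbours: it has just one rich vertex, and it is poor. -/
theorem Hub.bad [Finite V] (H : Hub G h D B) (hG : Con7 G) (hdeg : ∀ v, 7 ≤ (nb G v).ncard)
    (hK : ¬ IsMinor (⊤ : SimpleGraph (Fin 6)) G) {r : V}
    (hr : r ≠ h ∧ ¬ G.Adj h r) (hB : B.card = 7) :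
    D.card = 1 ∧ ∃ w, G.Adj h w ∧ (cn G h w).ncard ≤ 2 := by
  classical
  have hne : 1 ≤ D.card := Finset.card_pos.2 H.ne
  have hcross := H.cross
  by_cases hD : D.card = 1
  · refine ⟨hD, ?_⟩
    by_contra hcon
    push Not at hcon
    obtain ⟨v, hv⟩ := Finset.card_eq_one.1 hD
    have hvD : v ∈ D := by rw [hv]; simp
    -- edges between
    have hdn : dn (G.induce (D : Set V)) = 0 := by
      have := dn_le (G.induce (D : Set V))
      rw [Nat.card_coe_set_eq, Set.ncard_coe_finset, hD] at this
      omega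
    have hX : 6 ≤ ∑ b ∈ B, dg G D b := by omega
    -- the rim
    obtain ⟨C, hC⟩ : ∃ C, C = B.filter fun w => G.Adj v w := ⟨_, rfl⟩
    have hDv : dg G D v = 0 := by
      have := dn_ind G D
      rw [hdn, hv, Finset.sum_singleton] at this
      rw [hv]
      exact this.symm
    have hCcard : C.card = 6 := by
      have h1 := H.six hvD
      have h2 : dg G B v = C.card := by rw [hC]; unfold dg; congr!
      omega
    have hCB : C ⊆ B := by rw [hC]; exact Finset.filter_subset _ _
    have hCv : ∀ x, x ∈ C ↔ x ∈ B ∧ G.Adj v x := by intro x; rw [hC, Finset.mem_filter]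
    obtain ⟨b0, hb0⟩ : ∃ b0, B \ C = {b0} := by
      rw [← Finset.card_eq_one, Finset.card_sdiff_of_subset hCB]
      omega
    have hb0' : b0 ∈ B ∧ b0 ∉ C := by
      rw [← Finset.mem_sdiff, hb0]; simp
    have hBeq : B = insert b0 C := by
      ext x
      rw [Finset.mem_insert]
      constructor
      · intro hx
        by_cases hxC : x ∈ C
        · exact Or.inr hxC
        · left
          have : x ∈ B \ C := Finset.mem_sdiff.2 ⟨hx, hxC⟩
          rw [hb0] at this
          simpa using this
      · rintro (rfl | hx)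
        · exact hb0'.1
        · exact hCB hx
    -- rim vertices
    have hrim : ∀ b ∈ C, 2 ≤ dg G C b := by
      intro b hb
      obtain ⟨hbB, hvb⟩ := (hCv b).1 hb
      have h1 := H.rich v hvD b hvb
      have h2 : cn G v b \ {h} ⊆ ((C.filter fun w => G.Adj b w : Finset V) : Set V) := by
        rintro w ⟨⟨hw1, hw2⟩, hw3⟩
        rw [Finset.mem_coe, Finset.mem_filter]
        refine ⟨?_, hw2⟩
        rw [hCv]
        refine ⟨?_, hw1⟩
        rcases H.out hvD hw1 with h' | h' | h'
        · exact absurd h' hw3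
        · rw [hv, Finset.mem_singleton] at h'
          rw [h'] at hw1
          exact absurd hw1 (G.irrefl)
        · exact h'
      have h3 := Set.ncard_le_ncard h2 (Set.toFinite _)
      rw [Set.ncard_coe_finset] at h3
      have h4 := Set.ncard_sdiff_singleton_add_one
        (show h ∈ cn G v b from ⟨(H.adj v hvD).symm, ((H.nbs b).2 (Or.inr hbB)).symm⟩)
        (Set.toFinite _)
      have h5 : dg G C b = (C.filter fun w => G.Adj b w).card := by unfold dg; congr!
      omega
    have hb0C : 3 ≤ dg G C b0 := by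
      have h1 := hcon b0 ((H.nbs b0).2 (Or.inr hb0'.1))
      rw [H.cn_eq] at h1
      have h2 : dg G D b0 = 0 := by
        unfold dg
        rw [Finset.card_eq_zero, Finset.filter_eq_empty_iff]
        intro x hx hadj
        rw [hv, Finset.mem_singleton] at hx
        rw [hx] at hadj
        exact hb0'.2 ((hCv b0).2 ⟨hb0'.1, hadj.symm⟩)
      have h3 : dg G B b0 = dg G C b0 := by
        have e : B = C ∪ {b0} := by
          rw [hBeq]; ext x; simp [or_comm]
        have hd : Disjoint C {b0} := by
          rw [Finset.disjoint_singleton_right]; exact hb0'.2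
        rw [e, dg_union hd, dg_singleton, if_neg (G.irrefl)]
        rfl
      omega
    have hY : 18 ≤ ∑ b ∈ B, dg G B b := by
      have hd : Disjoint C {b0} := by
        rw [Finset.disjoint_singleton_right]; exact hb0'.2
      have e : B = C ∪ {b0} := by
        rw [hBeq]; ext x; simp [or_comm]
      have h1 : ∑ b ∈ B, dg G B b = ∑ b ∈ B, dg G C b + ∑ b ∈ B, dg G {b0} b := by
        rw [← Finset.sum_add_distrib]
        refine Finset.sum_congr rfl fun b _ => ?_
        nth_rewrite 1 [e]
        exact dg_union hd b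
      have h2 : ∑ b ∈ B, dg G C b = ∑ b ∈ C, dg G C b + dg G C b0 := by
        rw [e, Finset.sum_union hd, Finset.sum_singleton]
      have h3 : ∑ b ∈ B, dg G {b0} b = dg G B b0 := by
        rw [sum_dg_comm, Finset.sum_singleton]
      have h4 : C.card * 2 ≤ ∑ b ∈ C, dg G C b := by
        have := Finset.card_nsmul_le_sum C (fun b => dg G C b) 2 hrim
        rwa [smul_eq_mul] at this
      have h5 := dg_mono hCB b0 (G := G)
      omega
    obtain ⟨c, hc, hsum⟩ := numericA B (dg G D) (dg G B) hB hX hY
    exact hK (H.minor hG hr hB hc hsum)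
  · exfalso
    have hD2 : 2 ≤ D.card := by omega
    have hE : 10 ≤ ∑ b ∈ B, dg G D b := by
      rcases Nat.lt_or_ge 2 D.card with h3 | h3
      · have hno : ¬ IsMinor (⊤ : SimpleGraph (Fin 5)) (G.induce (D : Set V)) := by
          intro hm
          apply hK
          refine cone_nb h (hm.trans ?_)
          refine isMinor_of_inj (fun x : (D : Set V) => (⟨x.1, H.adj x.1 x.2⟩ : nb G h)) ?_ ?_
          · intro x y hxy
            have h5 : x.1 = y.1 := Subtype.mk.inj hxy
            exact Subtype.ext h5
          · intro x y hxy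
            exact hxy
        have h4 : dn (G.induce (D : Set V)) + 10 < 6 * D.card := by
          by_contra hc
          push Not at hc
          refine hno (mader5 _ _ ?_ ?_)
          · rw [Nat.card_coe_set_eq, Set.ncard_coe_finset]; omega
          · rw [Nat.card_coe_set_eq, Set.ncard_coe_finset]; omega
        omega
      · have h2 : D.card = 2 := by omega
        have := dn_le (G.induce (D : Set V))
        rw [Nat.card_coe_set_eq, Set.ncard_coe_finset, h2] at this
        omega
    obtain ⟨B1, hB1⟩ : ∃ B1 : Finset V, ∀ b, b ∈ B1 ↔ b ∈ B ∧ 1 ≤ dg G D b :=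
      ⟨B.filter fun b => 1 ≤ dg G D b, fun b => by rw [Finset.mem_filter]⟩
    obtain ⟨c, hc, hsum⟩ := numeric B (dg G D) (dg G B) hB H.even hE B1 hB1
      (H.six_le hG hr B1 hB1) (fun b hb => H.three ((hB1 b).1 hb).1 ((hB1 b).1 hb).2)
      (fun b hb => H.one hG hdeg hK ((hB1 b).1 hb).1 ((hB1 b).1 hb).2)
    exact hK (H.minor hG hr hB hc hsum)

end

end Pool.Agent.R7
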