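import Pool.Agent.R7.Conn

set_option autoImplicit false

/-!
# The neighbourhood of a vertex of degree seven
-/

namespace Pool.Agent.R7

open SimpleGraph Pool.Agent.TreewidthMinor Pool.Agent.K6

variable {V W : Type}

/-- A model with one branch set of size two and four single vertices. -/
theorem pattern2 (G : SimpleGraph V) (f : Fin 7 → V) (hf : Function.Injective f)
    (x y p q r s : Fin 7) (hn : [x, y, p, q, r, s].Nodup)
    (hxy : G.Adj (f x) (f y)) (hpq : G.Adj (f p) (f q))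
    (hpr : G.Adj (f p) (f r)) (hqr : G.Adj (f q) (f r))
    (h1 : G.Adj (f x) (f p) ∨ G.Adj (f y) (f p)) (h2 : G.Adj (f x) (f q) ∨ G.Adj (f y) (f q))
    (h3 : G.Adj (f x) (f r) ∨ G.Adj (f y) (f r)) (h4 : G.Adj (f x) (f s) ∨ G.Adj (f y) (f s))
    (hps : G.Adj (f p) (f s)) (hqs : G.Adj (f q) (f s)) (hrs : G.Adj (f r) (f s)) :
    IsMinor (⊤ : SimpleGraph (Fin 5)) G := by
  simp only [List.nodup_cons, List.mem_cons, List.not_mem_nil, or_false, not_or,
    List.nodup_nil, and_true, not_false_eq_true] at hn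
  obtain ⟨⟨hxy', hxp, hxq, hxr, hxs⟩, ⟨hyp, hyq, hyr, hys⟩, ⟨hpq', hpr', hps'⟩, ⟨hqr', hqs'⟩,
    hrs'⟩ := hn
  have ne : ∀ {i j : Fin 7}, i ≠ j → f i ≠ f j := fun h h' => h (hf h')
  have d21 : ∀ {a b c : Fin 7}, a ≠ c → b ≠ c → Disjoint ({f a, f b} : Set V) {f c} := by
    intro a b c h h'
    rw [Set.disjoint_left]
    intro t ht ht'
    rw [Set.mem_singleton_iff] at ht'
    rcases ht with ht | ht
    · exact ne h (ht.symm.trans ht')
    · exact ne h' ((Set.mem_singleton_iff.1 ht).symm.trans ht')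
  have d11 : ∀ {a c : Fin 7}, a ≠ c → Disjoint ({f a} : Set V) {f c} := by
    intro a c h
    rw [Set.disjoint_singleton]
    exact ne h
  have e21 : ∀ {a b c : Fin 7}, G.Adj (f a) (f c) ∨ G.Adj (f b) (f c) →
      ∃ s ∈ ({f a, f b} : Set V), ∃ t ∈ ({f c} : Set V), G.Adj s t := by
    rintro a b c (h | h)
    · exact ⟨_, Or.inl rfl, _, rfl, h⟩
    · exact ⟨_, Or.inr rfl, _, rfl, h⟩
  have e11 : ∀ {a c : Fin 7}, G.Adj (f a) (f c) →
      ∃ s ∈ ({f a} : Set V), ∃ t ∈ ({f c} : Set V), G.Adj s t := fun h => ⟨_, rfl, _, rfl, h⟩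
  refine mk_minor ![{f x, f y}, {f p}, {f q}, {f r}, {f s}] ?_ ?_ ?_
  · intro i
    fin_cases i
    · exact SC.pair hxy
    · exact SC.singleton G _
    · exact SC.singleton G _
    · exact SC.singleton G _
    · exact SC.singleton G _
  · exact fin5_lt (fun i j => Disjoint (![{f x, f y}, {f p}, {f q}, {f r}, {f s}] i : Set V)
      (![{f x, f y}, {f p}, {f q}, {f r}, {f s}] j)) (d21 hxp hyp) (d21 hxq hyq) (d21 hxr hyr)
      (d21 hxs hys) (d11 hpq') (d11 hpr') (d11 hps') (d11 hqr') (d11 hqs') (d11 hrs')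
  · exact fin5_lt (fun i j => ∃ u ∈ (![{f x, f y}, {f p}, {f q}, {f r}, {f s}] i : Set V),
      ∃ t ∈ (![{f x, f y}, {f p}, {f q}, {f r}, {f s}] j : Set V), G.Adj u t) (e21 h1)
      (e21 h2) (e21 h3) (e21 h4) (e11 hpq) (e11 hpr) (e11 hps) (e11 hqr) (e11 hqs) (e11 hrs)

/-- Five mutually adjacent vertices. -/
theorem pattern1 (G : SimpleGraph V) (f : Fin 7 → V) (hf : Function.Injective f)
    (x p q r s : Fin 7) (hn : [x, p, q, r, s].Nodup)
    (hxp : G.Adj (f x) (f p)) (hxq : G.Adj (f x) (f q)) (hxr : G.Adj (f x) (f r))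
    (hxs : G.Adj (f x) (f s)) (hpq : G.Adj (f p) (f q)) (hpr : G.Adj (f p) (f r))
    (hps : G.Adj (f p) (f s)) (hqr : G.Adj (f q) (f r)) (hqs : G.Adj (f q) (f s))
    (hrs : G.Adj (f r) (f s)) : IsMinor (⊤ : SimpleGraph (Fin 5)) G := by
  simp only [List.nodup_cons, List.mem_cons, List.not_mem_nil, or_false, not_or,
    List.nodup_nil, and_true, not_false_eq_true] at hn
  obtain ⟨⟨hxp', hxq', hxr', hxs'⟩, ⟨hpq', hpr', hps'⟩, ⟨hqr', hqs'⟩, hrs'⟩ := hn
  have d11 : ∀ {a c : Fin 7}, a ≠ c → Disjoint ({f a} : Set V) {f c} := by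
    intro a c h
    rw [Set.disjoint_singleton]
    exact fun h' => h (hf h')
  have e11 : ∀ {a c : Fin 7}, G.Adj (f a) (f c) →
      ∃ s ∈ ({f a} : Set V), ∃ t ∈ ({f c} : Set V), G.Adj s t := fun h => ⟨_, rfl, _, rfl, h⟩
  refine mk_minor ![{f x}, {f p}, {f q}, {f r}, {f s}] ?_ ?_ ?_
  · intro i
    fin_cases i <;> exact SC.singleton G _
  · exact fin5_lt (fun i j => Disjoint (![{f x}, {f p}, {f q}, {f r}, {f s}] i : Set V)
      (![{f x}, {f p}, {f q}, {f r}, {f s}] j)) (d11 hxp') (d11 hxq') (d11 hxr')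
      (d11 hxs') (d11 hpq') (d11 hpr') (d11 hps') (d11 hqr') (d11 hqs') (d11 hrs')
  · exact fin5_lt (fun i j => ∃ u ∈ (![{f x}, {f p}, {f q}, {f r}, {f s}] i : Set V),
      ∃ t ∈ (![{f x}, {f p}, {f q}, {f r}, {f s}] j : Set V), G.Adj u t) (e11 hxp)
      (e11 hxq) (e11 hxr) (e11 hxs) (e11 hpq) (e11 hpr) (e11 hps) (e11 hqr) (e11 hqs) (e11 hrs)

/-- Seven vertices, one with four neighbours and a non-neighbour, all degrees at least three. -/
theorem seven_core [Finite V] {G : SimpleGraph V} {v : V} (hv : (nb G v).ncard = 7)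
    (hrich : ∀ w, G.Adj v w → 3 ≤ (cn G v w).ncard) (Q : Prop)
    (hQ : ∀ c, G.Adj v c →
      IsMinor (⊤ : SimpleGraph (Fin 5)) ((plus G c (nb G v)).induce (nb G v)) → Q)
    (f : Fin 7 → nb G v) (hf : Function.Injective f)
    (h01 : G.Adj (f 0).1 (f 1).1) (h02 : G.Adj (f 0).1 (f 2).1) (h03 : G.Adj (f 0).1 (f 3).1)
    (h04 : G.Adj (f 0).1 (f 4).1) (h06 : ¬ G.Adj (f 0).1 (f 6).1) : Q := by
  classical
  have ne : ∀ {i j : Fin 7}, i ≠ j → (f i).1 ≠ (f j).1 := fun h h' => h (hf (Subtype.ext h'))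
  have star : ∀ (i s : Fin 7), i ≠ s →
      ((plus G (f s).1 (nb G v)).induce (nb G v)).Adj (f i) (f s) := by
    intro i s his
    show G.Adj (f i).1 (f s).1 ∨ ((f i).1 ≠ (f s).1 ∧ (((f i).1 = (f s).1 ∧ _) ∨
      ((f s).1 = (f s).1 ∧ (f i).1 ∈ nb G v)))
    exact Or.inr ⟨ne his, Or.inr ⟨rfl, (f i).2⟩⟩
  have old : ∀ {i j : Fin 7} (s : Fin 7), G.Adj (f i).1 (f j).1 →
      ((plus G (f s).1 (nb G v)).induce (nb G v)).Adj (f i) (f j) := fun s h => Or.inl h
  have old2 : ∀ {i j k l : Fin 7} (s : Fin 7), G.Adj (f i).1 (f j).1 ∨ G.Adj (f k).1 (f l).1 →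
      ((plus G (f s).1 (nb G v)).induce (nb G v)).Adj (f i) (f j) ∨
      ((plus G (f s).1 (nb G v)).induce (nb G v)).Adj (f k) (f l) :=
    fun s h => h.imp (old s) (old s)
  refine tree (fun i j => G.Adj (f i).1 (f j).1) Q (fun h => h.symm) ?_ ?_ ?_ ?_ h01 h02 h03 h04
    h06
  · intro i j k l m hn h1 h2 h3 h4
    exfalso
    have hc := ncard_list f hf _ hn
    have hr := hrich (f i).1 (f i).2
    have hsub : cn G v (f i).1 ⊆ (fun x : nb G v => x.1) '' (f '' {t | t ∈ [i, j, k, l, m]})ᶜ := by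
      rintro w ⟨hw, hw'⟩
      refine ⟨⟨w, hw⟩, ?_, rfl⟩
      rintro ⟨t, ht, ht'⟩
      have e : (f t).1 = w := congrArg Subtype.val ht'
      simp only [List.mem_cons, List.not_mem_nil, or_false, Set.mem_ofPred_eq] at ht
      rcases ht with rfl | rfl | rfl | rfl | rfl
      · rw [e] at hw'; exact G.irrefl hw'
      · exact h1 (by rw [e]; exact hw')
      · exact h2 (by rw [e]; exact hw')
      · exact h3 (by rw [e]; exact hw')
      · exact h4 (by rw [e]; exact hw')
    have h5 := Set.ncard_le_ncard hsub (Set.toFinite _)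
    rw [Set.ncard_image_of_injective _ Subtype.val_injective] at h5
    have h6 := Set.ncard_add_ncard_compl (f '' {t | t ∈ [i, j, k, l, m]}) (Set.toFinite _)
      (Set.toFinite _)
    rw [hc, Nat.card_coe_set_eq, hv] at h6
    simp only [List.length_cons, List.length_nil] at h6
    omega
  · intro x y z w s hn hxy hxz hxw hyz hyw hzw
    have hn' := hn
    simp only [List.nodup_cons, List.mem_cons, List.not_mem_nil, or_false, not_or,
      List.nodup_nil, and_true, not_false_eq_true] at hn'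
    obtain ⟨⟨-, -, -, hxs⟩, ⟨-, -, hys⟩, ⟨-, hzs⟩, hws⟩ := hn'
    exact hQ (f s).1 (f s).2 (pattern1 _ f hf x y z w s hn (old s hxy) (old s hxz) (old s hxw)
      (star _ _ hxs) (old s hyz) (old s hyw) (star _ _ hys) (old s hzw) (star _ _ hzs)
      (star _ _ hws))
  · intro x y p q r s hn hxy hpq hpr hqr h1 h2 h3
    have hn' := hn
    simp only [List.nodup_cons, List.mem_cons, List.not_mem_nil, or_false, not_or,
      List.nodup_nil, and_true, not_false_eq_true] at hn'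
    obtain ⟨⟨-, -, -, -, hxs⟩, ⟨-, -, -, hys⟩, ⟨-, -, hps⟩, ⟨-, hqs⟩, hrs⟩ := hn'
    exact hQ (f s).1 (f s).2 (pattern2 _ f hf x y p q r s hn (old s hxy) (old s hpq) (old s hpr)
      (old s hqr) (old2 s h1) (old2 s h2) (old2 s h3) (Or.inl (star _ _ hxs)) (star _ _ hps)
      (star _ _ hqs) (star _ _ hrs))
  · intro x y z w p q s hn hxy hzw hpq h1 h2 h3 h4 h5
    have hn' := hn
    simp only [List.nodup_cons, List.mem_cons, List.not_mem_nil, or_false, not_or,
      List.nodup_nil, and_true, not_false_eq_true] at hn'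
    obtain ⟨⟨-, -, -, -, -, hxs⟩, ⟨-, -, -, -, hys⟩, ⟨-, -, -, hzs⟩, ⟨-, -, hws⟩, ⟨-, hps⟩,
      hqs⟩ := hn'
    exact hQ (f s).1 (f s).2 (pattern _ f hf x y z w p q s hn (old s hxy) (old s hzw) (old s hpq)
      (star _ _ hps) (star _ _ hqs) (old2 s h1) (old2 s h2) (Or.inl (star _ _ hxs))
      (old2 s h3) (old2 s h4) (Or.inl (star _ _ hzs))
      (h5.imp (old s) (fun h => h.imp (old s) (fun h => h.imp (old s) (old s)))))

/-- The rich vertices of degree seven have a hub. -/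
theorem hub [Finite V] {G : SimpleGraph V} (hG : Con7 G)
    (hK : ¬ IsMinor (⊤ : SimpleGraph (Fin 6)) G) {v : V} (hv : (nb G v).ncard = 7)
    (hrich : ∀ w, G.Adj v w → 3 ≤ (cn G v w).ncard) {r : V} (hr : r ≠ v ∧ ¬ G.Adj v r) :
    ∃ h, G.Adj v h ∧ ∀ w, G.Adj v w → w ≠ h → G.Adj h w := by
  classical
  have := Fintype.ofFinite V
  -- a vertex of degree at least four in the neighbourhood
  have hdeg : ∀ w : nb G v, (nb (G.induce (nb G v)) w).ncard = (cn G v w.1).ncard := by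
    intro w
    have : cn G v w.1 = (fun x : nb G v => x.1) '' nb (G.induce (nb G v)) w := by
      ext x
      constructor
      · rintro ⟨h1, h2⟩
        exact ⟨⟨x, h1⟩, h2, rfl⟩
      · rintro ⟨y, hy, rfl⟩
        exact ⟨y.2, hy⟩
    rw [this, Set.ncard_image_of_injective _ Subtype.val_injective]
  have h4 : ∃ w : nb G v, 4 ≤ (nb (G.induce (nb G v)) w).ncard := by
    by_contra hcon
    push Not at hcon
    have h3 : ∀ w : nb G v, (nb (G.induce (nb G v)) w).ncard = 3 := by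
      intro w
      have h1 := hcon w
      have h2 := hrich w.1 w.2
      have h3 := hdeg w
      omega
    have hs := dn_eq_sum (G.induce (nb G v))
    rw [Finset.sum_congr rfl (fun w _ => h3 w), Finset.sum_const, Finset.card_univ,
      ← Nat.card_eq_fintype_card, Nat.card_coe_set_eq, hv] at hs
    obtain ⟨k, hk⟩ := dn_even (G.induce (nb G v))
    simp only [smul_eq_mul] at hs
    omega
  obtain ⟨w, hw⟩ := h4
  by_cases hz : ∃ z : nb G v, z ≠ w ∧ ¬ G.Adj w.1 z.1
  swap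
  · push Not at hz
    refine ⟨w.1, w.2, ?_⟩
    intro x hx hxw
    exact hz ⟨x, hx⟩ (fun e => hxw (congrArg Subtype.val e))
  exfalso
  obtain ⟨z, hzw, hzw'⟩ := hz
  obtain ⟨R, hR, hrR, hRv, hRN⟩ := piece hr
  have hatt := attach hG (A := nb G v) (z := v) ⟨r, hrR⟩
    (by
      rw [Set.disjoint_left]
      exact fun x hx hx' => (hRv x hx).2 hx')
    (fun h => (hRv v h).1 rfl) (fun h => G.irrefl h) hv.le (fun a ha b hab => hRN a ha b hab)
  -- enumeration of the neighbourhood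
  obtain ⟨s, hs1, hs2⟩ := Set.exists_subset_card_eq hw
  have hcs : Nat.card s = 4 := by rw [Nat.card_coe_set_eq]; exact hs2
  have e4 : Fin 4 ≃ s := (Finite.equivFinOfCardEq hcs).symm
  have hsa : ∀ i, G.Adj w.1 (e4 i).1.1 := fun i => hs1 (e4 i).2
  have hwe : ∀ i, w ≠ (e4 i).1 := fun i h => by
    have := hsa i
    rw [← h] at this
    exact G.irrefl this
  have hze : ∀ i, (e4 i).1 ≠ z := fun i h => by
    have := hsa i
    rw [h] at this
    exact hzw' this
  have hee : ∀ i j, i ≠ j → (e4 i).1 ≠ (e4 j).1 := fun i j hij h =>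
    hij (e4.injective (Subtype.ext h))
  have hu : ∃ u : nb G v, u ∉ insert w (insert z s) := by
    by_contra hcon
    push Not at hcon
    have h1 : (insert w (insert z s) : Set (nb G v)) = Set.univ := by
      ext u; simp [hcon u]
    have h2 : (insert w (insert z s) : Set (nb G v)).ncard ≤ 6 := by
      refine (Set.ncard_insert_le _ _).trans ?_
      have := Set.ncard_insert_le z s
      omega
    rw [h1, Set.ncard_univ, Nat.card_coe_set_eq, hv] at h2
    omega
  obtain ⟨u, hu⟩ := hu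
  have huw : w ≠ u := fun h => hu (Or.inl h.symm)
  have huz : u ≠ z := fun h => hu (Or.inr (Or.inl h))
  have hue : ∀ i, (e4 i).1 ≠ u := fun i h => hu (Or.inr (Or.inr (by rw [← h]; exact (e4 i).2)))
  let f : Fin 7 → nb G v := ![w, (e4 0).1, (e4 1).1, (e4 2).1, (e4 3).1, u, z]
  have hlt : ∀ i j, i < j → f i ≠ f j :=
    fin7_lt (fun i j => f i ≠ f j) (hwe 0) (hwe 1) (hwe 2) (hwe 3) huw hzw.symm
      (hee 0 1 (by decide)) (hee 0 2 (by decide)) (hee 0 3 (by decide)) (hue 0) (hze 0)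
      (hee 1 2 (by decide)) (hee 1 3 (by decide)) (hue 1) (hze 1) (hee 2 3 (by decide)) (hue 2)
      (hze 2) (hue 3) (hze 3) huz
  have hf : Function.Injective f := by
    intro i j hij
    by_contra hne
    rcases lt_or_gt_of_ne hne with h | h
    · exact hlt i j h hij
    · exact hlt j i h hij.symm
  refine hK (seven_core hv hrich _ ?_ f hf (hsa 0) (hsa 1) (hsa 2) (hsa 3) hzw')
  intro c hc hm
  exact star_minor hR hRv (hatt c hc) hatt hm

end Pool.Agent.R7
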