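import Pool.Agent.R7.Count

set_option autoImplicit false

/-!
# The neighbourhood of a hub
-/

namespace Pool.Agent.R7

open SimpleGraph Pool.Agent.TreewidthMinor Pool.Agent.K6

variable {V : Type}

/-- Data of a hub `h` with its rich vertices `D` and its other neighbours `B`. -/
structure Hub (G : SimpleGraph V) (h : V) (D B : Finset V) : Prop where
  seven : ∀ v ∈ D, (nb G v).ncard = 7
  rich : ∀ v ∈ D, ∀ w, G.Adj v w → 3 ≤ (cn G v w).ncard
  adj : ∀ v ∈ D, G.Adj h v
  dom : ∀ v ∈ D, ∀ w, G.Adj v w → w ≠ h → G.Adj h w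
  disj : Disjoint D B
  nbs : ∀ w, G.Adj h w ↔ w ∈ D ∨ w ∈ B
  ne : D.Nonempty

section
variable {G : SimpleGraph V} {h : V} {D B : Finset V}

theorem Hub.notMem (H : Hub G h D B) : h ∉ D ∧ h ∉ B :=
  ⟨fun hh => G.irrefl ((H.nbs h).2 (Or.inl hh)), fun hh => G.irrefl ((H.nbs h).2 (Or.inr hh))⟩

theorem Hub.out (H : Hub G h D B) {v w : V} (hv : v ∈ D) (hvw : G.Adj v w) :
    w = h ∨ w ∈ D ∨ w ∈ B := by
  by_cases hw : w = h
  · exact Or.inl hw
  · exact Or.inr ((H.nbs w).1 (H.dom v hv w hvw hw))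

theorem Hub.coe [DecidableEq V] (H : Hub G h D B) : nb G h = ((D ∪ B : Finset V) : Set V) := by
  ext w
  rw [Finset.mem_coe, Finset.mem_union]
  exact H.nbs w

/-- the number of neighbours of `w` among the neighbours of `h` -/
theorem Hub.cn_eq (H : Hub G h D B) (w : V) : (cn G h w).ncard = dg G D w + dg G B w := by
  classical
  rw [← dg_union H.disj, dg, ← Set.ncard_coe_finset]
  congr 1
  ext x
  simp only [Finset.coe_filter, Finset.mem_union, Set.mem_ofPred_eq]
  constructor
  · rintro ⟨h1, h2⟩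
    exact ⟨(H.nbs x).1 h1, h2⟩
  · rintro ⟨h1, h2⟩
    exact ⟨(H.nbs x).2 h1, h2⟩

theorem Hub.six [Finite V] (H : Hub G h D B) {v : V} (hv : v ∈ D) :
    dg G D v + dg G B v = 6 := by
  classical
  have h1 := H.seven v hv
  have h2 : nb G v = insert h (cn G h v) := by
    ext x
    constructor
    · intro hx
      by_cases hxh : x = h
      · exact Or.inl hxh
      · exact Or.inr ⟨H.dom v hv x hx hxh, hx⟩
    · rintro (hx | hx)
      · rw [hx]; exact (H.adj v hv).symm
      · exact hx.2
  have h3 : h ∉ cn G h v := fun hh => G.irrefl hh.1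
  rw [h2, Set.ncard_insert_of_notMem h3 (Set.toFinite _), H.cn_eq v] at h1
  omega

/-- edges between the two parts -/
theorem Hub.cross [Finite V] (H : Hub G h D B) :
    ∑ b ∈ B, dg G D b + dn (G.induce (D : Set V)) = 6 * D.card := by
  rw [sum_dg_comm, dn_ind, ← Finset.sum_add_distrib,
    Finset.sum_congr rfl (fun v hv => show dg G B v + dg G D v = 6 by
      have := H.six hv
      omega), Finset.sum_const, smul_eq_mul, mul_comm]

theorem Hub.even [Finite V] (H : Hub G h D B) :
    Even (∑ b ∈ B, dg G D b + ∑ b ∈ B, dg G B b) := by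
  have h1 := H.cross
  have h2 := dn_even (G.induce (D : Set V))
  have h3 := dn_even (G.induce (B : Set V))
  rw [dn_ind] at h3
  obtain ⟨k, hk⟩ := h2
  obtain ⟨l, hl⟩ := h3
  refine ⟨3 * D.card - k + l, ?_⟩
  omega

/-- a vertex of `B` with a neighbour in `D` has three neighbours among the neighbours of `h` -/
theorem Hub.three [Finite V] (H : Hub G h D B) {b : V} (hb : b ∈ B) (hx : 1 ≤ dg G D b) :
    3 ≤ dg G D b + dg G B b := by
  classical
  obtain ⟨v, hv⟩ := Finset.card_pos.1 (show 0 < (D.filter fun w => G.Adj b w).card from hx)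
  rw [Finset.mem_filter] at hv
  obtain ⟨hvD, hbv⟩ := hv
  have h1 := H.rich v hvD b hbv.symm
  rw [← H.cn_eq b]
  have h2 : insert v (cn G v b \ {h}) ⊆ cn G h b := by
    rintro w (rfl | ⟨⟨hw1, hw2⟩, hw3⟩)
    · exact ⟨H.adj w hvD, hbv⟩
    · exact ⟨H.dom v hvD w hw1 hw3, hw2⟩
  have h3 := Set.ncard_le_ncard h2 (Set.toFinite _)
  have h4 : v ∉ cn G v b \ {h} := fun hh => G.irrefl hh.1.1
  rw [Set.ncard_insert_of_notMem h4 (Set.toFinite _)] at h3
  have h5 := Set.ncard_sdiff_singleton_add_one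
    (show h ∈ cn G v b from ⟨(H.adj v hvD).symm, ((H.nbs b).2 (Or.inr hb)).symm⟩)
    (Set.toFinite _)
  omega

/-- if it has exactly three, only one of them is in `D` -/
theorem Hub.one [Finite V] (H : Hub G h D B) (hG : Con7 G) (hdeg : ∀ v, 7 ≤ (nb G v).ncard)
    (hK : ¬ IsMinor (⊤ : SimpleGraph (Fin 6)) G) {b : V} (hb : b ∈ B) (hx : 1 ≤ dg G D b)
    (h3 : dg G D b + dg G B b = 3) : dg G D b = 1 := by
  classical
  by_contra hne
  have h2 : 1 < (D.filter fun w => G.Adj b w).card := by
    have : dg G D b = (D.filter fun w => G.Adj b w).card := by unfold dg; congr!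
    omega
  obtain ⟨v, hv, v', hv', hvv⟩ := Finset.one_lt_card.1 h2
  rw [Finset.mem_filter] at hv hv'
  obtain ⟨hvD, hbv⟩ := hv
  obtain ⟨hvD', hbv'⟩ := hv'
  have hhb : G.Adj h b := (H.nbs b).2 (Or.inr hb)
  rw [← H.cn_eq b] at h3
  -- all common neighbours of `h` and `b` other than `u` are adjacent to `u`, for `u ∈ D`
  have key : ∀ u ∈ D, G.Adj b u → ∀ w ∈ cn G h b, w ≠ u → G.Adj u w := by
    intro u hu hbu w hw hwu
    have h1 := H.rich u hu b hbu.symm
    have h4 : cn G u b \ {h} ⊆ cn G h b \ {u} := by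
      rintro t ⟨⟨ht1, ht2⟩, ht3⟩
      refine ⟨⟨H.dom u hu t ht1 ht3, ht2⟩, ?_⟩
      intro ht
      rw [Set.mem_singleton_iff] at ht
      rw [ht] at ht1
      exact G.irrefl ht1
    have h5 := Set.ncard_sdiff_singleton_add_one
      (show h ∈ cn G u b from ⟨(H.adj u hu).symm, hhb.symm⟩) (Set.toFinite _)
    have h6 := Set.ncard_sdiff_singleton_add_one
      (show u ∈ cn G h b from ⟨H.adj u hu, hbu⟩) (Set.toFinite _)
    have h7 : cn G u b \ {h} = cn G h b \ {u} :=
      Set.eq_of_subset_of_ncard_le h4 (by omega) (Set.toFinite _)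
    have h8 : w ∈ cn G u b \ {h} := by rw [h7]; exact ⟨hw, hwu⟩
    exact h8.1.1
  have hvc : v ∈ cn G h b := ⟨H.adj v hvD, hbv⟩
  have hvc' : v' ∈ cn G h b := ⟨H.adj v' hvD', hbv'⟩
  -- a third one
  have hq : ∃ q ∈ cn G h b, q ≠ v ∧ q ≠ v' := by
    by_contra hcon
    push Not at hcon
    have hs : cn G h b ⊆ {v, v'} := by
      intro q hq
      by_cases h : q = v
      · exact Or.inl h
      · exact Or.inr (hcon q hq h)
    have h4 := Set.ncard_le_ncard hs (Set.toFinite _)
    have h5 : ({v, v'} : Set V).ncard ≤ 2 :=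
      (Set.ncard_insert_le _ _).trans (by rw [Set.ncard_singleton])
    omega
  obtain ⟨q, hq, hqv, hqv'⟩ := hq
  have e1 : G.Adj v v' := key v hvD hbv v' hvc' (Ne.symm hvv)
  have e2 : G.Adj v q := key v hvD hbv q hq hqv
  have e3 : G.Adj v' q := key v' hvD' hbv' q hq hqv'
  have e4 : G.Adj h q := hq.1
  have e5 : G.Adj b q := hq.2
  have e6 : G.Adj h v := H.adj v hvD
  have e7 : G.Adj h v' := H.adj v' hvD'
  refine no_five hG hdeg hK {h, b, v, v', q} ?_ ?_
  · rw [Set.ncard_insert_of_notMem, Set.ncard_insert_of_notMem, Set.ncard_insert_of_notMem,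
      Set.ncard_pair e3.ne]
    · rintro (h' | h')
      · exact e1.ne h'
      · exact e2.ne (Set.mem_singleton_iff.1 h')
    · rintro (h' | h' | h')
      · exact hbv.ne h'
      · exact hbv'.ne h'
      · exact e5.ne (Set.mem_singleton_iff.1 h')
    · rintro (h' | h' | h' | h')
      · exact hhb.ne h'
      · exact e6.ne h'
      · exact e7.ne h'
      · exact e4.ne (Set.mem_singleton_iff.1 h')
  · have hs : ∀ x ∈ ({h, b, v, v', q} : Set V), ∀ y ∈ ({h, b, v, v', q} : Set V),
        x = y ∨ G.Adj x y := by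
      have := hhb.symm
      have := e6.symm
      have := e7.symm
      have := e4.symm
      have := hbv.symm
      have := hbv'.symm
      have := e5.symm
      have := e1.symm
      have := e2.symm
      have := e3.symm
      intro x hx y hy
      simp only [Set.mem_insert_iff, Set.mem_singleton_iff] at hx hy
      rcases hx with hx | hx | hx | hx | hx <;> rcases hy with hy | hy | hy | hy | hy <;>
        rw [hx, hy] <;> first | exact Or.inl rfl | exact Or.inr (by assumption)
    intro x hx y hy hxy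
    exact (hs x hx y hy).resolve_left hxy

/-- the vertices of `B` with a neighbour in `D` -/
theorem Hub.six_le [Finite V] (H : Hub G h D B) (hG : Con7 G) {r : V}
    (hr : r ≠ h ∧ ¬ G.Adj h r) (B1 : Finset V) (hB1 : ∀ b, b ∈ B1 ↔ b ∈ B ∧ 1 ≤ dg G D b) :
    6 ≤ B1.card := by
  classical
  by_contra hlt
  push Not at hlt
  obtain ⟨v, hv⟩ := H.ne
  refine sep hG (X := (D : Set V)) (S := ((insert h B1 : Finset V) : Set V)) (x := v) (y := r)
    hv ?_ ?_ ?_ ?_ ?_
  · rw [Set.disjoint_left]
    intro x hx hx'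
    rw [Finset.mem_coe, Finset.mem_insert] at hx'
    rcases hx' with hx' | hx'
    · rw [hx'] at hx; exact H.notMem.1 hx
    · exact Finset.disjoint_left.1 H.disj hx ((hB1 x).1 hx').1
  · rw [Set.ncard_coe_finset]
    have := Finset.card_insert_le h B1
    omega
  · intro hrD
    exact hr.2 ((H.nbs r).2 (Or.inl hrD))
  · intro hrS
    rw [Finset.mem_coe, Finset.mem_insert] at hrS
    rcases hrS with h' | h'
    · exact hr.1 h'
    · exact hr.2 ((H.nbs r).2 (Or.inr ((hB1 r).1 h').1))
  · intro a ha b hab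
    rcases H.out ha hab with h' | h' | h'
    · right; rw [h']; simp
    · exact Or.inl h'
    · right
      rw [Finset.mem_coe, Finset.mem_insert]
      right
      rw [hB1]
      refine ⟨h', ?_⟩
      have : 0 < (D.filter fun w => G.Adj b w).card :=
        Finset.card_pos.2 ⟨a, Finset.mem_filter.2 ⟨ha, hab.symm⟩⟩
      exact this

/-- the whole boundary -/
theorem Hub.seven_le [Finite V] (H : Hub G h D B) (hG : Con7 G) {r : V}
    (hr : r ≠ h ∧ ¬ G.Adj h r) : 7 ≤ B.card := by
  classical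
  by_contra hlt
  push Not at hlt
  refine sep hG (X := ((insert h D : Finset V) : Set V)) (S := (B : Set V)) (x := h) (y := r)
    (by simp) ?_ ?_ ?_ ?_ ?_
  · rw [Set.disjoint_left]
    intro x hx hx'
    rw [Finset.mem_coe, Finset.mem_insert] at hx
    rcases hx with hx | hx
    · rw [hx] at hx'; exact H.notMem.2 hx'
    · exact Finset.disjoint_left.1 H.disj hx hx'
  · rw [Set.ncard_coe_finset]
    omega
  · intro hrD
    rw [Finset.mem_coe, Finset.mem_insert] at hrD
    rcases hrD with h' | h'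
    · exact hr.1 h'
    · exact hr.2 ((H.nbs r).2 (Or.inl h'))
  · intro hrS
    exact hr.2 ((H.nbs r).2 (Or.inr hrS))
  · intro a ha b hab
    rw [Finset.mem_coe, Finset.mem_insert] at ha ⊢
    rcases ha with ha | ha
    · rw [ha] at hab
      rcases (H.nbs b).1 hab with h' | h'
      · exact Or.inl (Or.inr h')
      · exact Or.inr h'
    · rcases H.out ha hab with h' | h' | h'
      · exact Or.inl (Or.inl h')
      · exact Or.inl (Or.inr h')
      · exact Or.inr h'

end

end Pool.Agent.R7
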