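import Pool.Agent.R7.Pack

set_option autoImplicit false

/-!
# Counting bad vertices
-/

namespace Pool.Agent.R7

open SimpleGraph Pool.Agent.TreewidthMinor Pool.Agent.K6

variable {V : Type}

/-- an end of an edge which lies in at most two triangles -/
def Poor (G : SimpleGraph V) (v : V) : Prop :=
  ∃ w, G.Adj v w ∧ (cn G v w).ncard ≤ 2

/-- a vertex `v` of degree seven such that some vertex `h` with `N[v] ⊆ N[h]` has degree at most
eight and is an end of an edge which lies in at most two triangles -/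
def Bad (G : SimpleGraph V) (v : V) : Prop :=
  (nb G v).ncard = 7 ∧ ∃ h, (∀ x, x = v ∨ G.Adj v x → x = h ∨ G.Adj h x) ∧
    (nb G h).ncard ≤ 8 ∧ Poor G h

/-- a vertex of degree seven all whose edges lie in at least three triangles -/
def Rich (G : SimpleGraph V) (v : V) : Prop :=
  (nb G v).ncard = 7 ∧ ∀ w, G.Adj v w → 3 ≤ (cn G v w).ncard

/-- A vertex has a vertex different from it and not adjacent to it. -/
theorem exists_far [Finite V] {G : SimpleGraph V} (hdeg : ∀ v, 7 ≤ (nb G v).ncard)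
    (hK : ¬ IsMinor (⊤ : SimpleGraph (Fin 6)) G) (h : V) : ∃ r, r ≠ h ∧ ¬ G.Adj h r := by
  classical
  by_contra hcon
  push Not at hcon
  refine hK (cone_nb h (mader5 _ _ ?_ ?_))
  · rw [Nat.card_coe_set_eq]
    have := hdeg h
    omega
  · have h1 := le_dn (G.induce (nb G h)) 6 (fun w => by
      have h2 : nb G w.1 ⊆ insert h ((fun x : nb G h => x.1) '' nb (G.induce (nb G h)) w) := by
        intro x hx
        by_cases hxh : x = h
        · exact Or.inl hxh
        · exact Or.inr ⟨⟨x, hcon x hxh⟩, hx, rfl⟩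
      have h3 := Set.ncard_le_ncard h2 (Set.toFinite _)
      have h4 := Set.ncard_insert_le h ((fun x : nb G h => x.1) '' nb (G.induce (nb G h)) w)
      rw [Set.ncard_image_of_injective _ Subtype.val_injective] at h4
      have h5 := hdeg w.1
      omega)
    omega

/-- The total deficit is at most the number of bad vertices. -/
theorem deficit [Finite V] {G : SimpleGraph V} (hG : Con7 G)
    (hdeg : ∀ v, 7 ≤ (nb G v).ncard) (hK : ¬ IsMinor (⊤ : SimpleGraph (Fin 6)) G) :
    8 * Nat.card V ≤ dn G + {v | Bad G v}.ncard := by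
  classical
  have := Fintype.ofFinite V
  have hfar := exists_far hdeg hK
  -- the hubs
  have hσ : ∀ v, ∃ h, Rich G v → G.Adj v h ∧ ∀ w, G.Adj v w → w ≠ h → G.Adj h w := by
    intro v
    by_cases hv : Rich G v
    · obtain ⟨r, hr⟩ := hfar v
      obtain ⟨h, hh⟩ := hub hG hK hv.1 hv.2 hr
      exact ⟨h, fun _ => hh⟩
    · exact ⟨v, fun h => absurd h hv⟩
  choose σ hσ using hσ
  obtain ⟨S, hS⟩ : ∃ S : Finset V, S = Finset.univ.filter fun v => Rich G v := ⟨_, rfl⟩
  have hS' : ∀ v, v ∈ S ↔ Rich G v := by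
    intro v; rw [hS, Finset.mem_filter]; simp
  obtain ⟨D, hD⟩ : ∃ D : V → Finset V, D = fun h => S.filter fun v => σ v = h := ⟨_, rfl⟩
  have hD' : ∀ h v, v ∈ D h ↔ Rich G v ∧ σ v = h := by
    intro h v; rw [hD, Finset.mem_filter, hS']
  obtain ⟨F, hF⟩ : ∃ F : Finset V, F = Finset.univ.filter fun h =>
      (D h = ∅ ∧ (nb G h).ncard = 7 ∧ ¬ Rich G h) ∨
      ((D h).Nonempty ∧ (nb G h).ncard ≤ 8 ∧ Poor G h) := ⟨_, rfl⟩
  have hF' : ∀ h, h ∈ F ↔ (D h = ∅ ∧ (nb G h).ncard = 7 ∧ ¬ Rich G h) ∨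
      ((D h).Nonempty ∧ (nb G h).ncard ≤ 8 ∧ Poor G h) := by
    intro v; rw [hF, Finset.mem_filter]; simp
  have hDadj : ∀ h, ∀ v ∈ D h, G.Adj h v := by
    intro h v hv
    obtain ⟨h1, h2⟩ := (hD' h v).1 hv
    have := (hσ v h1).1
    rw [h2] at this
    exact this.symm
  -- the main inequality at a vertex
  have key : ∀ v, 8 + (D v).card ≤ (nb G v).ncard + (if v ∈ S then 1 else 0) +
      (if v ∈ F then 1 else 0) := by
    intro h
    rcases Finset.eq_empty_or_nonempty (D h) with he | hne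
    · have h7 := hdeg h
      have he' : (D h).card = 0 := by rw [he]; rfl
      rcases Nat.lt_or_ge 7 (nb G h).ncard with h8 | h8
      · split_ifs <;> omega
      · by_cases hr : h ∈ S
        · rw [if_pos hr]; split_ifs <;> omega
        · have hf : h ∈ F := by
            rw [hF']
            refine Or.inl ⟨he, by omega, ?_⟩
            rwa [← hS']
          rw [if_pos hf]; split_ifs; omega
    · obtain ⟨B, hB⟩ : ∃ B : Finset V, B = (nb G h).toFinset \ D h := ⟨_, rfl⟩
      have hB' : ∀ w, w ∈ B ↔ G.Adj h w ∧ w ∉ D h := by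
        intro w
        rw [hB, Finset.mem_sdiff, Set.mem_toFinset]
        exact Iff.rfl
      have H : Hub G h (D h) B := by
        refine ⟨?_, ?_, hDadj h, ?_, ?_, ?_, hne⟩
        · exact fun v hv => ((hD' h v).1 hv).1.1
        · exact fun v hv => ((hD' h v).1 hv).1.2
        · intro v hv w hw hwh
          obtain ⟨h1, h2⟩ := (hD' h v).1 hv
          have := (hσ v h1).2 w hw
          rw [h2] at this
          exact this hwh
        · rw [Finset.disjoint_left]
          exact fun x hx hx' => ((hB' x).1 hx').2 hx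
        · intro w
          rw [hB']
          constructor
          · intro hw
            by_cases hwD : w ∈ D h
            · exact Or.inl hwD
            · exact Or.inr ⟨hw, hwD⟩
          · rintro (hw | hw)
            · exact hDadj h w hw
            · exact hw.1
      obtain ⟨r, hr⟩ := hfar h
      have hd : (nb G h).ncard = (D h).card + B.card := by
        rw [H.coe, Set.ncard_coe_finset, Finset.card_union_of_disjoint H.disj]
      have h7 := H.seven_le hG hr
      rcases Nat.lt_or_ge 7 B.card with h8 | h8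
      · split_ifs <;> omega
      · obtain ⟨h1, w, hw, hw'⟩ := H.bad hG hdeg hK hr (by omega)
        have hf : h ∈ F := by
          rw [hF']
          exact Or.inr ⟨hne, by omega, w, hw, hw'⟩
        rw [if_pos hf]
        split_ifs <;> omega
  have hsum := Finset.sum_le_sum fun v (_ : v ∈ (Finset.univ : Finset V)) => key v
  have e1 : ∑ v, (D v).card = S.card := by
    rw [hD]
    exact (Finset.card_eq_sum_card_fiberwise fun v _ => Finset.mem_coe.2 (Finset.mem_univ (σ v))).symm
  have e2 : ∑ v : V, (if v ∈ S then 1 else 0) = S.card := by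
    rw [← Finset.card_filter]
    congr 1
    ext v; simp
  have e3 : ∑ v : V, (if v ∈ F then 1 else 0) = F.card := by
    rw [← Finset.card_filter]
    congr 1
    ext v; simp
  rw [Finset.sum_add_distrib, Finset.sum_add_distrib, Finset.sum_add_distrib, e1, e2, e3,
    Finset.sum_const, Finset.card_univ, ← dn_eq_sum, ← Nat.card_eq_fintype_card,
    smul_eq_mul] at hsum
  -- the exceptional vertices give bad vertices
  have hτ : ∀ h, ∃ v, h ∈ F → Bad G v ∧ ((¬ Rich G v ∧ v = h) ∨ (Rich G v ∧ σ v = h)) := by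
    intro h
    by_cases hh : h ∈ F
    · rcases (hF' h).1 hh with ⟨-, h2, h3⟩ | ⟨⟨v, hv⟩, h2, h3⟩
      · refine ⟨h, fun _ => ⟨⟨h2, h, fun x hx => hx, by omega, ?_⟩, Or.inl ⟨h3, rfl⟩⟩⟩
        by_contra hcon
        refine h3 ⟨h2, fun w hw => ?_⟩
        by_contra hcon'
        exact hcon ⟨w, hw, by omega⟩
      · obtain ⟨h4, h5⟩ := (hD' h v).1 hv
        refine ⟨v, fun _ => ⟨⟨h4.1, h, ?_, h2, h3⟩, Or.inr ⟨h4, h5⟩⟩⟩
        rintro x (rfl | hx)
        · exact Or.inr (hDadj h x hv)
        · by_cases hxh : x = h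
          · exact Or.inl hxh
          · right
            have := (hσ v h4).2 x hx
            rw [h5] at this
            exact this hxh
    · exact ⟨h, fun h' => absurd h' hh⟩
  choose τ hτ using hτ
  have e4 : F.card ≤ {v | Bad G v}.ncard := by
    rw [← Set.ncard_coe_finset]
    refine Set.ncard_le_ncard_of_injOn τ ?_ ?_ (Set.toFinite _)
    · intro h hh
      exact (hτ h hh).1
    · intro h hh h' hh' he
      rcases (hτ h hh).2 with ⟨h1, h2⟩ | ⟨h1, h2⟩ <;>
        rcases (hτ h' hh').2 with ⟨h3, h4⟩ | ⟨h3, h4⟩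
      · rw [← h2, ← h4, he]
      · rw [he] at h1; exact absurd h3 h1
      · rw [← he] at h3; exact absurd h1 h3
      · rw [← h2, ← h4, he]
  omega

/-- Half of the elements are pairwise unrelated, if every element is related to at most one. -/
theorem half {ι : Type} (S : Finset ι) (R : ι → ι → Prop) (hs : ∀ i j, R i j → R j i)
    (hu : ∀ i ∈ S, ∀ j ∈ S, ∀ k ∈ S, i ≠ j → i ≠ k → R i j → R i k → j = k) :
    ∃ T ⊆ S, (∀ i ∈ T, ∀ j ∈ T, i ≠ j → ¬ R i j) ∧ S.card ≤ 2 * T.card := by
  classical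
  obtain ⟨P, hP⟩ : ∃ P : Finset ι → Prop, ∀ T, P T ↔ ∀ i ∈ T, ∀ j ∈ T, i ≠ j → ¬ R i j :=
    ⟨fun T => ∀ i ∈ T, ∀ j ∈ T, i ≠ j → ¬ R i j, fun _ => Iff.rfl⟩
  obtain ⟨T, hT, hmax⟩ := Finset.exists_max_image (S.powerset.filter P) Finset.card
    ⟨∅, by rw [Finset.mem_filter, Finset.mem_powerset, hP]; simp⟩
  rw [Finset.mem_filter, Finset.mem_powerset, hP] at hT
  obtain ⟨hTS, hT2⟩ := hT
  refine ⟨T, hTS, hT2, ?_⟩
  have h1 : ∀ i ∈ S \ T, ∃ j ∈ T, R i j := by
    intro i hi
    rw [Finset.mem_sdiff] at hi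
    by_contra hcon
    push Not at hcon
    have h2 := hmax (insert i T) (by
      rw [Finset.mem_filter, Finset.mem_powerset, hP]
      refine ⟨Finset.insert_subset hi.1 hTS, ?_⟩
      intro a ha b hb hab
      rw [Finset.mem_insert] at ha hb
      rcases ha with rfl | ha <;> rcases hb with rfl | hb
      · exact absurd rfl hab
      · exact hcon b hb
      · exact fun h => hcon a ha (hs _ _ h)
      · exact hT2 a ha b hb hab)
    rw [Finset.card_insert_of_notMem hi.2] at h2
    omega
  choose! g hg using h1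
  have h2 : (S \ T).card ≤ T.card := by
    refine Finset.card_le_card_of_injOn g (fun i hi => (hg i hi).1) ?_
    intro i hi j hj hij
    have hi' := hg i hi
    have hj' := hg j hj
    have hi2 := Finset.mem_sdiff.1 (Finset.mem_coe.1 hi)
    have hj2 := Finset.mem_sdiff.1 (Finset.mem_coe.1 hj)
    refine hu (g i) (hTS hi'.1) i hi2.1 j hj2.1 ?_ ?_ (hs _ _ hi'.2) ?_
    · exact fun h => hi2.2 (h ▸ hi'.1)
    · exact fun h => hj2.2 (by rw [← h]; exact hi'.1)
    · rw [hij]; exact hs _ _ hj'.2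
  have h3 := Finset.card_sdiff_add_card_eq_card hTS
  omega

/-- A bad vertex gives an edge to contract. -/
theorem choice [Finite V] {G : SimpleGraph V} {v : V} (hv : Bad G v) (hp : ¬ Poor G v) :
    ∃ h z, G.Adj h z ∧ (cn G h z).ncard ≤ 2 ∧ (h = v ∨ G.Adj v h) ∧
      ∀ x, G.Adj h x → (x = v ∨ G.Adj v x) ∨ x = z := by
  classical
  obtain ⟨h7, h, hN, h8, w, hw, hw'⟩ := hv
  have hrich : ∀ w, G.Adj v w → 3 ≤ (cn G v w).ncard := by
    intro w hw
    by_contra hcon
    exact hp ⟨w, hw, by omega⟩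
  have hhv : h ≠ v := fun e => hp (by rw [← e]; exact ⟨w, hw, hw'⟩)
  have hadj : G.Adj h v := (hN v (Or.inl rfl)).resolve_left (fun e => hhv e.symm)
  have hN' : ∀ x, G.Adj v x → x ≠ h → G.Adj h x := fun x hx hxh =>
    (hN x (Or.inr hx)).resolve_left hxh
  have hd := Set.ncard_sdiff_singleton_add_one (show h ∈ nb G v from hadj.symm) (Set.toFinite _)
  have hwv : w ≠ v := by
    intro e
    have h1 : nb G v \ {h} ⊆ cn G h w := by
      rintro x ⟨hx1, hx2⟩
      exact ⟨hN' x hx1 hx2, by rw [e]; exact hx1⟩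
    have h2 := Set.ncard_le_ncard h1 (Set.toFinite _)
    omega
  have hwv' : ¬ G.Adj v w := by
    intro hvw
    have h1 := hrich w hvw
    have h2 := Set.ncard_sdiff_singleton_add_one
      (show h ∈ cn G v w from ⟨hadj.symm, hw.symm⟩) (Set.toFinite _)
    have h3 : insert v (cn G v w \ {h}) ⊆ cn G h w := by
      rintro x (rfl | ⟨⟨hx1, hx2⟩, hx3⟩)
      · exact ⟨hadj, hvw.symm⟩
      · exact ⟨hN' x hx1 hx3, hx2⟩
    have h4 := Set.ncard_le_ncard h3 (Set.toFinite _)
    rw [Set.ncard_insert_of_notMem (fun hh => G.irrefl hh.1.1) (Set.toFinite _)] at h4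
    omega
  refine ⟨h, w, hw, hw', Or.inr hadj.symm, ?_⟩
  have h1 : insert w (insert v (nb G v \ {h})) ⊆ nb G h := by
    rintro x (rfl | rfl | ⟨hx1, hx2⟩)
    · exact hw
    · exact hadj
    · exact hN' x hx1 hx2
  have h2 : (insert w (insert v (nb G v \ {h}))).ncard = 8 := by
    rw [Set.ncard_insert_of_notMem _ (Set.toFinite _),
      Set.ncard_insert_of_notMem _ (Set.toFinite _)]
    · omega
    · exact fun hh => G.irrefl hh.1
    · rintro (hh | hh)
      · exact hwv hh
      · exact hwv' hh.1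
  have h3 : insert w (insert v (nb G v \ {h})) = nb G h :=
    Set.eq_of_subset_of_ncard_le h1 (by omega) (Set.toFinite _)
  intro x hx
  have h4 : x ∈ insert w (insert v (nb G v \ {h})) := by rw [h3]; exact hx
  rcases h4 with h4 | h4 | h4
  · exact Or.inr h4
  · exact Or.inl (Or.inl h4)
  · exact Or.inl (Or.inr h4.1)

/-- **Main theorem.** `S` consists of ends of edges in at most `k v` triangles, `S'` of bad
vertices, and all of them have pairwise distance at least three. -/
theorem main [Finite V] {G : SimpleGraph V} (hG : Con7 G)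
    (hdeg : ∀ v, 7 ≤ (nb G v).ncard) (hK : ¬ IsMinor (⊤ : SimpleGraph (Fin 6)) G)
    (h8 : 8 ≤ Nat.card V) (S S' : Finset V) (k : V → ℕ)
    (hS : ∀ v ∈ S, k v ≤ 3 ∧ ∃ w, G.Adj v w ∧ (cn G v w).ncard ≤ k v)
    (hS' : ∀ v ∈ S', Bad G v ∧ ¬ Poor G v) (hdisj : Disjoint S S')
    (hfar : ∀ u v, (u ∈ S ∨ u ∈ S') → (v ∈ S ∨ v ∈ S') → u ≠ v →
      ∀ x, (x = u ∨ G.Adj u x) → (x = v ∨ G.Adj v x) → False) :
    ∑ v ∈ S, (6 - 2 * k v) + S'.card + 20 ≤ {v | Bad G v}.ncard := by
  classical
  obtain ⟨K, hK'⟩ : ∃ K : V → ℕ, K = fun v => if v ∈ S then k v else 2 := ⟨_, rfl⟩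
  have hKS : ∀ v ∈ S, K v = k v := by intro v hv; rw [hK']; simp [hv]
  have hKS' : ∀ v ∈ S', K v = 2 := by
    intro v hv
    have : v ∉ S := fun h => Finset.disjoint_left.1 hdisj h hv
    rw [hK']; simp [this]
  have hch : ∀ v, ∃ h z, (v ∈ S ∨ v ∈ S') → G.Adj h z ∧ (cn G h z).ncard ≤ K v ∧
      (h = v ∨ G.Adj v h) ∧ (∀ x, G.Adj h x → (x = v ∨ G.Adj v x) ∨ x = z) ∧
      (v ∈ S → G.Adj v z) := by
    intro v
    by_cases hv : v ∈ S
    · obtain ⟨-, w, hw, hw'⟩ := hS v hv
      exact ⟨v, w, fun _ => ⟨hw, by rw [hKS v hv]; exact hw', Or.inl rfl,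
        fun x hx => Or.inl (Or.inr hx), fun _ => hw⟩⟩
    · by_cases hv' : v ∈ S'
      · obtain ⟨h, z, h1, h2, h3, h4⟩ := choice (hS' v hv').1 (hS' v hv').2
        exact ⟨h, z, fun _ => ⟨h1, by rw [hKS' v hv']; exact h2, h3, h4, fun h => absurd h hv⟩⟩
      · exact ⟨v, v, fun h => absurd h (not_or.2 ⟨hv, hv'⟩)⟩
  choose h z hch using hch
  obtain ⟨U, hU⟩ : ∃ U : V → Set V, U = fun v => {x | x = v ∨ G.Adj v x} := ⟨_, rfl⟩
  have hU' : ∀ v x, x ∈ U v ↔ (x = v ∨ G.Adj v x) := by intro v x; rw [hU]; rfl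
  have sub1 : ∀ v ∈ S, v ∈ S ∨ v ∈ S' := fun v hv => Or.inl hv
  have sub2 : ∀ v ∈ S', v ∈ S ∨ v ∈ S' := fun v hv => Or.inr hv
  obtain ⟨T', hTS, hT, hcard⟩ := half S' (fun i j => z i ∈ U j ∧ z j ∈ U i)
    (fun i j hh => ⟨hh.2, hh.1⟩) (by
      intro i _ j hj k hk _ _ h1 h2
      by_contra hjk
      exact hfar j k (sub2 j hj) (sub2 k hk) hjk (z i) ((hU' _ _).1 h1.1) ((hU' _ _).1 h2.1))
  obtain ⟨T, hTd⟩ : ∃ T, T = S ∪ T' := ⟨_, rfl⟩
  have hTsub : ∀ v ∈ T, v ∈ S ∨ v ∈ S' := by
    intro v hv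
    rw [hTd, Finset.mem_union] at hv
    rcases hv with hv | hv
    · exact sub1 v hv
    · exact sub2 v (hTS hv)
  have P : Pack G T h z U K := by
    refine ⟨?_, ?_, ?_, ?_, ?_, ?_⟩
    · exact fun i hi => (hch i (hTsub i hi)).1
    · exact fun i hi => (hch i (hTsub i hi)).2.1
    · intro i hi
      rw [hU']
      exact (hch i (hTsub i hi)).2.2.1
    · intro i hi x hx
      rw [hU']
      exact (hch i (hTsub i hi)).2.2.2.1 x hx
    · intro i hi j hj hij x hx hx'
      rw [hU'] at hx hx'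
      exact hfar i j (hTsub i hi) (hTsub j hj) hij x hx hx'
    · intro i hi j hj hij h1 h2
      have hi' := hi
      have hj' := hj
      rw [hTd, Finset.mem_union] at hi' hj'
      rcases hi' with hi' | hi'
      · exact hfar i j (sub1 i hi') (hTsub j hj) hij (z i)
          (Or.inr ((hch i (sub1 i hi')).2.2.2.2 hi')) ((hU' _ _).1 h1)
      · rcases hj' with hj' | hj'
        · exact hfar j i (sub1 j hj') (hTsub i hi) (Ne.symm hij) (z j)
            (Or.inr ((hch j (sub1 j hj')).2.2.2.2 hj')) ((hU' _ _).1 h2)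
        · exact hT i hi' j hj' hij ⟨h1, h2⟩
  obtain ⟨W, hW, H, h1, h2, h3⟩ := P.minor K T.card V G T h z U rfl
  have hWc : 4 ≤ Nat.card W := by
    rcases Finset.eq_empty_or_nonempty T with he | ⟨i, hi⟩
    · rw [he, Finset.card_empty] at h2
      omega
    · -- the other neighbours of `i` are not contracted
      have h5 : Disjoint (T.image h : Finset V) ((nb G i \ {h i}).toFinite.toFinset) := by
        rw [Finset.disjoint_left]
        intro x hx hx'
        rw [Finset.mem_image] at hx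
        rw [Set.Finite.mem_toFinset] at hx'
        obtain ⟨j, hj, rfl⟩ := hx
        by_cases hij : j = i
        · rw [hij] at hx'
          exact hx'.2 rfl
        · refine P.disj j hj i hi hij (h j) (P.mem j hj) ?_
          rw [hU']
          exact Or.inr hx'.1
      have h6 : (T.image h).card = T.card := by
        refine Finset.card_image_of_injOn ?_
        intro a ha b hb hab
        by_contra hne
        exact P.disj a ha b hb hne (h a) (P.mem a ha) (by
          have : h a = h b := hab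
          rw [this]; exact P.mem b hb)
      have h7 := Set.ncard_add_ncard_compl ((T.image h : Finset V) : Set V)
        (Set.toFinite _) (Set.toFinite _)
      have h8' : nb G i \ {h i} ⊆ ((T.image h : Finset V) : Set V)ᶜ := by
        intro x hx hx'
        exact Finset.disjoint_left.1 h5 (Finset.mem_coe.1 hx')
          ((Set.Finite.mem_toFinset _).2 hx)
      have h9 := Set.ncard_le_ncard h8' (Set.toFinite _)
      have h10 := Set.ncard_sdiff_singleton_le (nb G i) (h i)
      have h11 := Set.ncard_le_ncard_sdiff_add_ncard (nb G i) {h i} (Set.toFinite _)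
      rw [Set.ncard_singleton] at h11
      rw [Set.ncard_coe_finset, h6] at h7
      have h12 := hdeg i
      omega
  have hm : ¬ 8 * Nat.card W ≤ dn H + 18 := fun hh => hK ((mader6 W H hWc hh).trans h1)
  obtain ⟨l, hl⟩ := dn_even H
  have hd := deficit hG hdeg hK
  have hpar : dn H + 20 ≤ 8 * Nat.card W := by omega
  -- the sums
  have hdT : Disjoint S T' := by
    rw [Finset.disjoint_left]
    intro x hx hx'
    exact Finset.disjoint_left.1 hdisj hx (hTS hx')
  have e1 : ∑ i ∈ T, (2 + 2 * K i) + ∑ i ∈ T, (6 - 2 * K i) = 8 * T.card := by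
    rw [← Finset.sum_add_distrib, mul_comm, ← smul_eq_mul, ← Finset.sum_const]
    refine Finset.sum_congr rfl fun i hi => ?_
    have : K i ≤ 3 := by
      have hi' := hi
      rw [hTd, Finset.mem_union] at hi'
      rcases hi' with hi' | hi'
      · rw [hKS i hi']; exact (hS i hi').1
      · rw [hKS' i (hTS hi')]; omega
    omega
  have e2 : ∑ i ∈ T, (6 - 2 * K i) = ∑ i ∈ S, (6 - 2 * k i) + 2 * T'.card := by
    rw [hTd, Finset.sum_union hdT]
    congr 1
    · exact Finset.sum_congr rfl fun i hi => by rw [hKS i hi]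
    · rw [mul_comm, ← smul_eq_mul, ← Finset.sum_const]
      exact Finset.sum_congr rfl fun i hi => by rw [hKS' i (hTS hi)]
  omega

end Pool.Agent.R7
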