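import Pool.Agent.R7.Fin

set_option autoImplicit false

/-!
# Contracting many poor edges which are far apart
-/

namespace Pool.Agent.R7

open SimpleGraph Pool.Agent.TreewidthMinor Pool.Agent.K6

variable {V ι : Type}

/-- Edges `h i`–`z i` in at most `k i` triangles, to be contracted; the neighbours of `h i` other
than `z i` lie in `U i`, and these sets are disjoint. -/
structure Pack (G : SimpleGraph V) (I : Finset ι) (h z : ι → V) (U : ι → Set V) (k : ι → ℕ) :
    Prop where
  adj : ∀ i ∈ I, G.Adj (h i) (z i)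
  two : ∀ i ∈ I, (cn G (h i) (z i)).ncard ≤ k i
  mem : ∀ i ∈ I, h i ∈ U i
  nbs : ∀ i ∈ I, ∀ x, G.Adj (h i) x → x ∈ U i ∨ x = z i
  disj : ∀ i ∈ I, ∀ j ∈ I, i ≠ j → ∀ x, x ∈ U i → x ∈ U j → False
  conf : ∀ i ∈ I, ∀ j ∈ I, i ≠ j → z i ∈ U j → z j ∈ U i → False

theorem Pack.minor (k : ι → ℕ) (m : ℕ) : ∀ (V : Type) [Finite V] (G : SimpleGraph V)
    (I : Finset ι) (h z : ι → V) (U : ι → Set V), I.card = m → Pack G I h z U k →
    ∃ (W : Type) (_ : Finite W) (H : SimpleGraph W), IsMinor H G ∧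
      Nat.card W + m = Nat.card V ∧ dn G ≤ dn H + ∑ i ∈ I, (2 + 2 * k i) := by
  classical
  induction m with
  | zero =>
    intro V hV G I h z U hI _
    refine ⟨V, hV, G, isMinor_mono le_rfl, rfl, ?_⟩
    rw [Finset.card_eq_zero.1 hI, Finset.sum_empty]
    exact le_rfl
  | succ m ih =>
    intro V hV G I h z U hI P
    obtain ⟨i0, hi0⟩ := Finset.card_pos.1 (show 0 < I.card by omega)
    obtain ⟨a, ha⟩ : ∃ a, a = h i0 := ⟨_, rfl⟩
    obtain ⟨b, hb⟩ : ∃ b, b = z i0 := ⟨_, rfl⟩
    have hab : G.Adj a b := by rw [ha, hb]; exact P.adj i0 hi0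
    have haU : a ∈ U i0 := by rw [ha]; exact P.mem i0 hi0
    have hanb : ∀ x, G.Adj a x → x ∈ U i0 ∨ x = b := by
      intro x hx
      rw [ha] at hx
      rw [hb]
      exact P.nbs i0 hi0 x hx
    have hI' : ∀ i ∈ I.erase i0, i ∈ I ∧ i ≠ i0 := fun i hi =>
      ⟨Finset.mem_of_mem_erase hi, Finset.ne_of_mem_erase hi⟩
    have aU : ∀ i ∈ I.erase i0, a ∉ U i := fun i hi hh =>
      P.disj i (hI' i hi).1 i0 hi0 (hI' i hi).2 a hh haU
    have k1 : ∀ i ∈ I.erase i0, h i ≠ a := fun i hi hh =>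
      aU i hi (hh ▸ P.mem i (hI' i hi).1)
    have k2 : ∀ i ∈ I.erase i0, ¬ G.Adj (h i) a := by
      intro i hi hh
      have hz : a = z i := (P.nbs i (hI' i hi).1 a hh).resolve_left (aU i hi)
      have hb' : h i = b := (hanb _ hh.symm).resolve_left fun h' =>
        P.disj i (hI' i hi).1 i0 hi0 (hI' i hi).2 _ (P.mem i (hI' i hi).1) h'
      refine P.conf i (hI' i hi).1 i0 hi0 (hI' i hi).2 ?_ ?_
      · rw [← hz]; exact haU
      · rw [← hb, ← hb']; exact P.mem i (hI' i hi).1
    have k3 : ∀ i ∈ I.erase i0, h i ≠ b := fun i hi hh =>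
      k2 i hi (by rw [hh]; exact hab.symm)
    have k4 : ∀ i ∈ I.erase i0, z i ≠ a := fun i hi hh =>
      k2 i hi (by rw [← hh]; exact P.adj i (hI' i hi).1)
    obtain ⟨f, hf⟩ : ∃ f : V → {x : V // x ≠ a}, ∀ x, x ≠ a → (f x).1 = x :=
      ⟨fun x => if hx : x ≠ a then ⟨x, hx⟩ else ⟨b, hab.ne'⟩, fun x hx => by simp [hx]⟩
    -- adjacency in the contracted graph
    have n1 : ∀ i ∈ I.erase i0, ∀ x, (contr G b a).Adj (f (h i)) x → G.Adj (h i) x.1 := by
      intro i hi x hx
      obtain ⟨-, h1 | ⟨h1, -⟩ | ⟨-, h1⟩⟩ := hx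
      · rwa [hf _ (k1 i hi)] at h1
      · rw [hf _ (k1 i hi)] at h1
        exact absurd h1 (k3 i hi)
      · rw [hf _ (k1 i hi)] at h1
        exact absurd h1.symm (k2 i hi)
    have n2 : ∀ i ∈ I.erase i0, ∀ x, (contr G b a).Adj (f (h i)) x →
        (contr G b a).Adj (f (z i)) x → G.Adj (z i) x.1 := by
      intro i hi x hx hx'
      have h0 := n1 i hi x hx
      obtain ⟨hne, h1 | ⟨h1, h2⟩ | ⟨h1, h2⟩⟩ := hx'
      · rwa [hf _ (k4 i hi)] at h1
      · exfalso
        rw [hf _ (k4 i hi)] at h1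
        have hxz : x.1 ≠ z i := fun hh => hne (Subtype.ext ((hf _ (k4 i hi)).trans hh.symm))
        have h3 := (P.nbs i (hI' i hi).1 _ h0).resolve_right hxz
        have h4 := (hanb _ h2).resolve_right (fun hh => hxz (hh.trans h1.symm))
        exact P.disj i (hI' i hi).1 i0 hi0 (hI' i hi).2 _ h3 h4
      · exfalso
        rw [hf _ (k4 i hi)] at h2
        have hxz : x.1 ≠ z i := fun hh => hne (Subtype.ext ((hf _ (k4 i hi)).trans hh.symm))
        have h3 := (P.nbs i (hI' i hi).1 _ h0).resolve_right hxz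
        have h4 := (hanb _ h2).resolve_right (fun hh => hxz (h1.trans hh.symm))
        refine P.conf i (hI' i hi).1 i0 hi0 (hI' i hi).2 h4 ?_
        rw [← hb, ← h1]
        exact h3
    have P' : Pack (contr G b a) (I.erase i0) (fun i => f (h i)) (fun i => f (z i))
        (fun i => {x | x.1 ∈ U i}) k := by
      refine ⟨?_, ?_, ?_, ?_, ?_, ?_⟩
      · intro i hi
        refine ⟨?_, Or.inl ?_⟩
        · intro hh
          have h1 : h i = z i := by
            rw [← hf _ (k1 i hi), ← hf _ (k4 i hi)]; exact congrArg Subtype.val hh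
          exact (P.adj i (hI' i hi).1).ne h1
        · rw [hf _ (k1 i hi), hf _ (k4 i hi)]
          exact P.adj i (hI' i hi).1
      · intro i hi
        have h1 : (fun x : {x : V // x ≠ a} => x.1) '' cn (contr G b a) (f (h i)) (f (z i)) ⊆
            cn G (h i) (z i) := by
          rintro _ ⟨x, ⟨hx1, hx2⟩, rfl⟩
          exact ⟨n1 i hi x hx1, n2 i hi x hx1 hx2⟩
        have h2 := Set.ncard_le_ncard h1 (Set.toFinite _)
        rw [Set.ncard_image_of_injective _ Subtype.val_injective] at h2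
        exact h2.trans (P.two i (hI' i hi).1)
      · intro i hi
        show (f (h i)).1 ∈ U i
        rw [hf _ (k1 i hi)]
        exact P.mem i (hI' i hi).1
      · intro i hi x hx
        rcases P.nbs i (hI' i hi).1 _ (n1 i hi x hx) with h1 | h1
        · exact Or.inl h1
        · exact Or.inr (Subtype.ext (h1.trans (hf _ (k4 i hi)).symm))
      · intro i hi j hj hij x hx hx'
        exact P.disj i (hI' i hi).1 j (hI' j hj).1 hij x.1 hx hx'
      · intro i hi j hj hij h1 h2
        have h1' : (f (z i)).1 ∈ U j := h1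
        have h2' : (f (z j)).1 ∈ U i := h2
        rw [hf _ (k4 i hi)] at h1'
        rw [hf _ (k4 j hj)] at h2'
        exact P.conf i (hI' i hi).1 j (hI' j hj).1 hij h1' h2'
    obtain ⟨W, hW, H, h1, h2, h3⟩ := ih {x : V // x ≠ a} (contr G b a) (I.erase i0) _ _ _
      (by rw [Finset.card_erase_of_mem hi0]; omega) P'
    refine ⟨W, hW, H, h1.trans (isMinor_contr G b a hab.symm), ?_, ?_⟩
    · have h4 : Nat.card {x : V // x ≠ a} + 1 = Nat.card V := by
        have h5 := Set.ncard_add_ncard_compl ({a} : Set V) (Set.toFinite _) (Set.toFinite _)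
        rw [Set.ncard_singleton] at h5
        have h6 : Nat.card {x : V // x ≠ a} = ({a}ᶜ : Set V).ncard := by
          rw [← Nat.card_coe_set_eq]
          rfl
        omega
      omega
    · have h4 := ncard_dartSet_contr G b a hab.symm
      have h5 : {w | G.Adj b w ∧ G.Adj a w}.ncard ≤ k i0 := by
        have h6 := P.two i0 hi0
        rw [← ha, ← hb] at h6
        have h7 : {w | G.Adj b w ∧ G.Adj a w} = cn G a b := by
          ext w
          exact ⟨fun hh => ⟨hh.2, hh.1⟩, fun hh => ⟨hh.2, hh.1⟩⟩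
        rwa [h7]
      have h6 : dn G ≤ dn (contr G b a) + 2 + 2 * {w | G.Adj b w ∧ G.Adj a w}.ncard := h4
      have h7 := Finset.add_sum_erase I (fun i => 2 + 2 * k i) hi0
      have h8 : (2 + 2 * k i0) + ∑ i ∈ I.erase i0, (2 + 2 * k i) = ∑ i ∈ I, (2 + 2 * k i) := h7
      omega

end Pool.Agent.R7
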