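import Pool.Agent.K6.Mader

set_option autoImplicit false

/-!
# Graphs on seven vertices of minimum degree three

Case tree: if the minimum degree is at least three and some vertex has at least four neighbours
and a non-neighbour, there is a model of the complete graph on four vertices which misses a vertex.
-/

namespace Pool.Agent.R7

/-- The case tree. -/
theorem tree (a : Fin 7 → Fin 7 → Prop) (Q : Prop) (sy : ∀ {i j}, a i j → a j i)
    (n4 : ∀ i j k l m : Fin 7, [i, j, k, l, m].Nodup → ¬ a i j → ¬ a i k → ¬ a i l → ¬ a i m → Q)
    (p1 : ∀ x y z w s : Fin 7, [x, y, z, w, s].Nodup → a x y → a x z → a x w → a y z → a y w →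
      a z w → Q)
    (p2 : ∀ x y p q r s : Fin 7, [x, y, p, q, r, s].Nodup → a x y → a p q → a p r → a q r →
      (a x p ∨ a y p) → (a x q ∨ a y q) → (a x r ∨ a y r) → Q)
    (p3 : ∀ x y z w p q s : Fin 7, [x, y, z, w, p, q, s].Nodup → a x y → a z w → a p q →
      (a x p ∨ a y p) → (a x q ∨ a y q) → (a z p ∨ a w p) → (a z q ∨ a w q) →
      (a x z ∨ a x w ∨ a y z ∨ a y w) → Q)
    (h01 : a 0 1) (h02 : a 0 2) (h03 : a 0 3) (h04 : a 0 4) (h06 : ¬ a 0 6) : Q := by
  by_cases h16 : a 1 6
  · by_cases h26 : a 2 6
    · by_cases h36 : a 3 6
      · by_cases h12 : a 1 2
        · exact p2 3 6 0 1 2 4 (by decide) h36 h01 h02 h12 (Or.inl (sy h03)) (Or.inr (sy h16))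
            (Or.inr (sy h26))
        · by_cases h13 : a 1 3
          · exact p2 2 6 0 1 3 4 (by decide) h26 h01 h03 h13 (Or.inl (sy h02)) (Or.inr (sy h16))
              (Or.inr (sy h36))
          · by_cases h23 : a 2 3
            · exact p2 1 6 0 2 3 4 (by decide) h16 h02 h03 h23 (Or.inl (sy h01)) (Or.inr (sy
                h26)) (Or.inr (sy h36))
            · by_cases h14 : a 1 4
              · by_cases h24 : a 2 4
                · exact p2 2 6 0 1 4 3 (by decide) h26 h01 h04 h14 (Or.inl (sy h02)) (Or.inr (sy
                    h16)) (Or.inl h24)
                · by_cases h25 : a 2 5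
                  · by_cases h34 : a 3 4
                    · exact p2 3 6 0 1 4 2 (by decide) h36 h01 h04 h14 (Or.inl (sy h03)) (Or.inr
                        (sy h16)) (Or.inl h34)
                    · by_cases h35 : a 3 5
                      · exact p3 0 1 2 5 3 6 4 (by decide) h01 h25 h36 (Or.inl h03) (Or.inr h16)
                          (Or.inr (sy h35)) (Or.inl h26) (Or.inl h02)
                      · exact n4 3 1 2 4 5 (by decide) (fun t => h13 (sy t)) (fun t => h23 (sy
                          t)) h34 h35
                  · exact n4 2 1 3 4 5 (by decide) (fun t => h12 (sy t)) h23 h24 h25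
              · by_cases h15 : a 1 5
                · by_cases h24 : a 2 4
                  · by_cases h34 : a 3 4
                    · exact p2 3 6 0 2 4 1 (by decide) h36 h02 h04 h24 (Or.inl (sy h03)) (Or.inr
                        (sy h26)) (Or.inl h34)
                    · by_cases h35 : a 3 5
                      · exact p3 0 2 1 5 3 6 4 (by decide) h02 h15 h36 (Or.inl h03) (Or.inr h26)
                          (Or.inr (sy h35)) (Or.inl h16) (Or.inl h01)
                      · exact n4 3 1 2 4 5 (by decide) (fun t => h13 (sy t)) (fun t => h23 (sy
                          t)) h34 h35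
                  · by_cases h25 : a 2 5
                    · exact p3 0 3 1 5 2 6 4 (by decide) h03 h15 h26 (Or.inl h02) (Or.inr h36)
                        (Or.inr (sy h25)) (Or.inl h16) (Or.inl h01)
                    · exact n4 2 1 3 4 5 (by decide) (fun t => h12 (sy t)) h23 h24 h25
                · exact n4 1 2 3 4 5 (by decide) h12 h13 h14 h15
      · by_cases h34 : a 3 4
        · by_cases h46 : a 4 6
          · by_cases h12 : a 1 2
            · exact p2 4 6 0 1 2 3 (by decide) h46 h01 h02 h12 (Or.inl (sy h04)) (Or.inr (sy
                h16)) (Or.inr (sy h26))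
            · by_cases h13 : a 1 3
              · exact p2 4 6 0 1 3 2 (by decide) h46 h01 h03 h13 (Or.inl (sy h04)) (Or.inr (sy
                  h16)) (Or.inl (sy h34))
              · by_cases h14 : a 1 4
                · exact p2 2 6 0 1 4 3 (by decide) h26 h01 h04 h14 (Or.inl (sy h02)) (Or.inr (sy
                    h16)) (Or.inr (sy h46))
                · by_cases h15 : a 1 5
                  · by_cases h23 : a 2 3
                    · exact p2 4 6 0 2 3 1 (by decide) h46 h02 h03 h23 (Or.inl (sy h04)) (Or.inr
                        (sy h26)) (Or.inl (sy h34))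
                    · by_cases h35 : a 3 5
                      · exact p3 1 5 4 6 0 3 2 (by decide) h15 h46 h03 (Or.inl (sy h01)) (Or.inr
                          (sy h35)) (Or.inl (sy h04)) (Or.inl (sy h34)) (Or.inr (Or.inl h16))
                      · exact n4 3 1 2 5 6 (by decide) (fun t => h13 (sy t)) (fun t => h23 (sy
                          t)) h35 h36
                  · exact n4 1 2 3 4 5 (by decide) h12 h13 h14 h15
          · by_cases h56 : a 5 6
            · by_cases h13 : a 1 3
              · by_cases h14 : a 1 4
                · exact p1 0 1 3 4 2 (by decide) h01 h03 h04 h13 h14 h34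
                · by_cases h24 : a 2 4
                  · exact p3 1 3 2 6 0 4 5 (by decide) h13 h26 h04 (Or.inl (sy h01)) (Or.inr h34)
                      (Or.inl (sy h02)) (Or.inl h24) (Or.inr (Or.inl h16))
                  · by_cases h45 : a 4 5
                    · exact p3 1 6 4 5 0 3 2 (by decide) h16 h45 h03 (Or.inl (sy h01)) (Or.inl
                        h13) (Or.inl (sy h04)) (Or.inl (sy h34)) (Or.inr (Or.inr (Or.inr (sy
                        h56))))
                    · exact n4 4 1 2 5 6 (by decide) (fun t => h14 (sy t)) (fun t => h24 (sy t))
                        h45 h46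
              · by_cases h23 : a 2 3
                · by_cases h14 : a 1 4
                  · exact p3 1 4 2 6 0 3 5 (by decide) h14 h26 h03 (Or.inl (sy h01)) (Or.inr (sy
                      h34)) (Or.inl (sy h02)) (Or.inl h23) (Or.inr (Or.inl h16))
                  · by_cases h24 : a 2 4
                    · exact p1 0 2 3 4 1 (by decide) h02 h03 h04 h23 h24 h34
                    · by_cases h45 : a 4 5
                      · exact p3 2 6 4 5 0 3 1 (by decide) h26 h45 h03 (Or.inl (sy h02)) (Or.inl
                          h23) (Or.inl (sy h04)) (Or.inl (sy h34)) (Or.inr (Or.inr (Or.inr (sy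
                          h56))))
                      · exact n4 4 1 2 5 6 (by decide) (fun t => h14 (sy t)) (fun t => h24 (sy
                          t)) h45 h46
                · by_cases h35 : a 3 5
                  · by_cases h12 : a 1 2
                    · exact p3 0 3 5 6 1 2 4 (by decide) h03 h56 h12 (Or.inl h01) (Or.inl h02)
                        (Or.inr (sy h16)) (Or.inr (sy h26)) (Or.inr (Or.inr (Or.inl h35)))
                    · by_cases h14 : a 1 4
                      · exact p3 1 6 3 5 0 4 2 (by decide) h16 h35 h04 (Or.inl (sy h01)) (Or.inl
                          h14) (Or.inl (sy h03)) (Or.inl h34) (Or.inr (Or.inr (Or.inr (sy h56))))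
                      · by_cases h15 : a 1 5
                        · exact p3 0 2 3 5 1 6 4 (by decide) h02 h35 h16 (Or.inl h01) (Or.inr
                            h26) (Or.inr (sy h15)) (Or.inr h56) (Or.inl h03)
                        · exact n4 1 2 3 4 5 (by decide) h12 h13 h14 h15
                  · exact n4 3 1 2 5 6 (by decide) (fun t => h13 (sy t)) (fun t => h23 (sy t))
                      h35 h36
            · exact n4 6 0 3 4 5 (by decide) (fun t => h06 (sy t)) (fun t => h36 (sy t)) (fun t
                => h46 (sy t)) (fun t => h56 (sy t))
        · by_cases h35 : a 3 5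
          · by_cases h46 : a 4 6
            · by_cases h14 : a 1 4
              · exact p2 2 6 0 1 4 3 (by decide) h26 h01 h04 h14 (Or.inl (sy h02)) (Or.inr (sy
                  h16)) (Or.inr (sy h46))
              · by_cases h24 : a 2 4
                · exact p2 1 6 0 2 4 3 (by decide) h16 h02 h04 h24 (Or.inl (sy h01)) (Or.inr (sy
                    h26)) (Or.inr (sy h46))
                · by_cases h45 : a 4 5
                  · by_cases h13 : a 1 3
                    · exact p3 1 6 3 5 0 4 2 (by decide) h16 h35 h04 (Or.inl (sy h01)) (Or.inr
                        (sy h46)) (Or.inl (sy h03)) (Or.inr (sy h45)) (Or.inl h13)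
                    · by_cases h23 : a 2 3
                      · exact p3 2 6 3 5 0 4 1 (by decide) h26 h35 h04 (Or.inl (sy h02)) (Or.inr
                          (sy h46)) (Or.inl (sy h03)) (Or.inr (sy h45)) (Or.inl h23)
                      · exact n4 3 1 2 4 6 (by decide) (fun t => h13 (sy t)) (fun t => h23 (sy
                          t)) h34 h36
                  · exact n4 4 1 2 3 5 (by decide) (fun t => h14 (sy t)) (fun t => h24 (sy t))
                      (fun t => h34 (sy t)) h45
            · by_cases h56 : a 5 6
              · by_cases h13 : a 1 3
                · exact p3 0 2 3 5 1 6 4 (by decide) h02 h35 h16 (Or.inl h01) (Or.inr h26)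
                    (Or.inl (sy h13)) (Or.inr h56) (Or.inl h03)
                · by_cases h23 : a 2 3
                  · exact p3 0 1 3 5 2 6 4 (by decide) h01 h35 h26 (Or.inl h02) (Or.inr h16)
                      (Or.inl (sy h23)) (Or.inr h56) (Or.inl h03)
                  · exact n4 3 1 2 4 6 (by decide) (fun t => h13 (sy t)) (fun t => h23 (sy t))
                      h34 h36
              · exact n4 6 0 3 4 5 (by decide) (fun t => h06 (sy t)) (fun t => h36 (sy t)) (fun t
                  => h46 (sy t)) (fun t => h56 (sy t))
          · by_cases h13 : a 1 3
            · by_cases h23 : a 2 3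
              · exact p2 2 6 0 1 3 4 (by decide) h26 h01 h03 h13 (Or.inl (sy h02)) (Or.inr (sy
                  h16)) (Or.inl h23)
              · exact n4 3 2 4 5 6 (by decide) (fun t => h23 (sy t)) h34 h35 h36
            · exact n4 3 1 4 5 6 (by decide) (fun t => h13 (sy t)) h34 h35 h36
    · by_cases h25 : a 2 5
      · by_cases h36 : a 3 6
        · by_cases h46 : a 4 6
          · by_cases h13 : a 1 3
            · exact p2 4 6 0 1 3 2 (by decide) h46 h01 h03 h13 (Or.inl (sy h04)) (Or.inr (sy
                h16)) (Or.inr (sy h36))
            · by_cases h12 : a 1 2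
              · by_cases h23 : a 2 3
                · exact p2 3 6 0 1 2 4 (by decide) h36 h01 h02 h12 (Or.inl (sy h03)) (Or.inr (sy
                    h16)) (Or.inl (sy h23))
                · by_cases h34 : a 3 4
                  · exact p2 1 6 0 3 4 2 (by decide) h16 h03 h04 h34 (Or.inl (sy h01)) (Or.inr
                      (sy h36)) (Or.inr (sy h46))
                  · by_cases h35 : a 3 5
                    · exact p3 1 6 2 5 0 3 4 (by decide) h16 h25 h03 (Or.inl (sy h01)) (Or.inr
                        (sy h36)) (Or.inl (sy h02)) (Or.inr (sy h35)) (Or.inl h12)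
                    · exact n4 3 1 2 4 5 (by decide) (fun t => h13 (sy t)) (fun t => h23 (sy t))
                        h34 h35
              · by_cases h14 : a 1 4
                · exact p2 3 6 0 1 4 2 (by decide) h36 h01 h04 h14 (Or.inl (sy h03)) (Or.inr (sy
                    h16)) (Or.inr (sy h46))
                · by_cases h15 : a 1 5
                  · by_cases h23 : a 2 3
                    · exact p3 1 5 3 6 0 2 4 (by decide) h15 h36 h02 (Or.inl (sy h01)) (Or.inr
                        (sy h25)) (Or.inl (sy h03)) (Or.inl (sy h23)) (Or.inr (Or.inl h16))
                    · by_cases h24 : a 2 4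
                      · exact p3 1 5 4 6 0 2 3 (by decide) h15 h46 h02 (Or.inl (sy h01)) (Or.inr
                          (sy h25)) (Or.inl (sy h04)) (Or.inl (sy h24)) (Or.inr (Or.inl h16))
                      · exact n4 2 1 3 4 6 (by decide) (fun t => h12 (sy t)) h23 h24 h26
                  · exact n4 1 2 3 4 5 (by decide) h12 h13 h14 h15
          · by_cases h56 : a 5 6
            · by_cases h12 : a 1 2
              · exact p3 0 3 2 5 1 6 4 (by decide) h03 h25 h16 (Or.inl h01) (Or.inr h36) (Or.inl
                  (sy h12)) (Or.inr h56) (Or.inl h02)
              · by_cases h13 : a 1 3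
                · exact p3 0 2 5 6 1 3 4 (by decide) h02 h56 h13 (Or.inl h01) (Or.inl h03)
                    (Or.inr (sy h16)) (Or.inr (sy h36)) (Or.inr (Or.inr (Or.inl h25)))
                · by_cases h14 : a 1 4
                  · by_cases h23 : a 2 3
                    · exact p3 0 1 2 5 3 6 4 (by decide) h01 h25 h36 (Or.inl h03) (Or.inr h16)
                        (Or.inl h23) (Or.inr h56) (Or.inl h02)
                    · by_cases h24 : a 2 4
                      · exact p3 1 6 2 5 0 4 3 (by decide) h16 h25 h04 (Or.inl (sy h01)) (Or.inl
                          h14) (Or.inl (sy h02)) (Or.inl h24) (Or.inr (Or.inr (Or.inr (sy h56))))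
                      · exact n4 2 1 3 4 6 (by decide) (fun t => h12 (sy t)) h23 h24 h26
                  · by_cases h15 : a 1 5
                    · exact p3 0 2 3 6 1 5 4 (by decide) h02 h36 h15 (Or.inl h01) (Or.inr h25)
                        (Or.inr (sy h16)) (Or.inr (sy h56)) (Or.inl h03)
                    · exact n4 1 2 3 4 5 (by decide) h12 h13 h14 h15
            · exact n4 6 0 2 4 5 (by decide) (fun t => h06 (sy t)) (fun t => h26 (sy t)) (fun t
                => h46 (sy t)) (fun t => h56 (sy t))
        · by_cases h46 : a 4 6
          · by_cases h56 : a 5 6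
            · by_cases h12 : a 1 2
              · exact p3 0 4 2 5 1 6 3 (by decide) h04 h25 h16 (Or.inl h01) (Or.inr h46) (Or.inl
                  (sy h12)) (Or.inr h56) (Or.inl h02)
              · by_cases h13 : a 1 3
                · by_cases h23 : a 2 3
                  · exact p3 1 6 2 5 0 3 4 (by decide) h16 h25 h03 (Or.inl (sy h01)) (Or.inl h13)
                      (Or.inl (sy h02)) (Or.inl h23) (Or.inr (Or.inr (Or.inr (sy h56))))
                  · by_cases h24 : a 2 4
                    · exact p3 0 1 2 5 4 6 3 (by decide) h01 h25 h46 (Or.inl h04) (Or.inr h16)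
                        (Or.inl h24) (Or.inr h56) (Or.inl h02)
                    · exact n4 2 1 3 4 6 (by decide) (fun t => h12 (sy t)) h23 h24 h26
                · by_cases h14 : a 1 4
                  · exact p3 0 2 5 6 1 4 3 (by decide) h02 h56 h14 (Or.inl h01) (Or.inl h04)
                      (Or.inr (sy h16)) (Or.inr (sy h46)) (Or.inr (Or.inr (Or.inl h25)))
                  · by_cases h15 : a 1 5
                    · exact p3 0 2 4 6 1 5 3 (by decide) h02 h46 h15 (Or.inl h01) (Or.inr h25)
                        (Or.inr (sy h16)) (Or.inr (sy h56)) (Or.inl h04)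
                    · exact n4 1 2 3 4 5 (by decide) h12 h13 h14 h15
            · exact n4 6 0 2 3 5 (by decide) (fun t => h06 (sy t)) (fun t => h26 (sy t)) (fun t
                => h36 (sy t)) (fun t => h56 (sy t))
          · exact n4 6 0 2 3 4 (by decide) (fun t => h06 (sy t)) (fun t => h26 (sy t)) (fun t =>
              h36 (sy t)) (fun t => h46 (sy t))
      · by_cases h12 : a 1 2
        · by_cases h23 : a 2 3
          · by_cases h13 : a 1 3
            · exact p1 0 1 2 3 4 (by decide) h01 h02 h03 h12 h13 h23
            · by_cases h36 : a 3 6
              · exact p2 3 6 0 1 2 4 (by decide) h36 h01 h02 h12 (Or.inl (sy h03)) (Or.inr (sy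
                  h16)) (Or.inl (sy h23))
              · by_cases h34 : a 3 4
                · by_cases h46 : a 4 6
                  · exact p3 1 2 4 6 0 3 5 (by decide) h12 h46 h03 (Or.inl (sy h01)) (Or.inr h23)
                      (Or.inl (sy h04)) (Or.inl (sy h34)) (Or.inr (Or.inl h16))
                  · exact n4 6 0 2 3 4 (by decide) (fun t => h06 (sy t)) (fun t => h26 (sy t))
                      (fun t => h36 (sy t)) (fun t => h46 (sy t))
                · by_cases h35 : a 3 5
                  · by_cases h56 : a 5 6
                    · exact p3 1 6 3 5 0 2 4 (by decide) h16 h35 h02 (Or.inl (sy h01)) (Or.inl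
                        h12) (Or.inl (sy h03)) (Or.inl (sy h23)) (Or.inr (Or.inr (Or.inr (sy
                        h56))))
                    · exact n4 6 0 2 3 5 (by decide) (fun t => h06 (sy t)) (fun t => h26 (sy t))
                        (fun t => h36 (sy t)) (fun t => h56 (sy t))
                  · exact n4 3 1 4 5 6 (by decide) (fun t => h13 (sy t)) h34 h35 h36
          · by_cases h24 : a 2 4
            · by_cases h14 : a 1 4
              · exact p1 0 1 2 4 3 (by decide) h01 h02 h04 h12 h14 h24
              · by_cases h46 : a 4 6
                · exact p2 4 6 0 1 2 3 (by decide) h46 h01 h02 h12 (Or.inl (sy h04)) (Or.inr (sy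
                    h16)) (Or.inl (sy h24))
                · by_cases h34 : a 3 4
                  · by_cases h36 : a 3 6
                    · exact p3 1 2 3 6 0 4 5 (by decide) h12 h36 h04 (Or.inl (sy h01)) (Or.inr
                        h24) (Or.inl (sy h03)) (Or.inl h34) (Or.inr (Or.inl h16))
                    · exact n4 6 0 2 3 4 (by decide) (fun t => h06 (sy t)) (fun t => h26 (sy t))
                        (fun t => h36 (sy t)) (fun t => h46 (sy t))
                  · by_cases h45 : a 4 5
                    · by_cases h56 : a 5 6
                      · exact p3 1 6 4 5 0 2 3 (by decide) h16 h45 h02 (Or.inl (sy h01)) (Or.inl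
                          h12) (Or.inl (sy h04)) (Or.inl (sy h24)) (Or.inr (Or.inr (Or.inr (sy
                          h56))))
                      · exact n4 6 0 2 4 5 (by decide) (fun t => h06 (sy t)) (fun t => h26 (sy
                          t)) (fun t => h46 (sy t)) (fun t => h56 (sy t))
                    · exact n4 4 1 3 5 6 (by decide) (fun t => h14 (sy t)) (fun t => h34 (sy t))
                        h45 h46
            · exact n4 2 3 4 5 6 (by decide) h23 h24 h25 h26
        · by_cases h23 : a 2 3
          · by_cases h24 : a 2 4
            · by_cases h34 : a 3 4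
              · exact p1 0 2 3 4 1 (by decide) h02 h03 h04 h23 h24 h34
              · by_cases h36 : a 3 6
                · by_cases h14 : a 1 4
                  · exact p3 1 4 3 6 0 2 5 (by decide) h14 h36 h02 (Or.inl (sy h01)) (Or.inr (sy
                      h24)) (Or.inl (sy h03)) (Or.inl (sy h23)) (Or.inr (Or.inl h16))
                  · by_cases h46 : a 4 6
                    · exact p2 4 6 0 2 3 1 (by decide) h46 h02 h03 h23 (Or.inl (sy h04)) (Or.inl
                        (sy h24)) (Or.inr (sy h36))
                    · by_cases h45 : a 4 5
                      · by_cases h56 : a 5 6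
                        · exact p3 3 6 4 5 0 2 1 (by decide) h36 h45 h02 (Or.inl (sy h03))
                            (Or.inl (sy h23)) (Or.inl (sy h04)) (Or.inl (sy h24)) (Or.inr (Or.inr
                            (Or.inr (sy h56))))
                        · exact n4 6 0 2 4 5 (by decide) (fun t => h06 (sy t)) (fun t => h26 (sy
                            t)) (fun t => h46 (sy t)) (fun t => h56 (sy t))
                      · exact n4 4 1 3 5 6 (by decide) (fun t => h14 (sy t)) (fun t => h34 (sy
                          t)) h45 h46
                · by_cases h46 : a 4 6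
                  · by_cases h13 : a 1 3
                    · exact p3 1 3 4 6 0 2 5 (by decide) h13 h46 h02 (Or.inl (sy h01)) (Or.inr
                        (sy h23)) (Or.inl (sy h04)) (Or.inl (sy h24)) (Or.inr (Or.inl h16))
                    · by_cases h35 : a 3 5
                      · by_cases h56 : a 5 6
                        · exact p3 3 5 4 6 0 2 1 (by decide) h35 h46 h02 (Or.inl (sy h03))
                            (Or.inl (sy h23)) (Or.inl (sy h04)) (Or.inl (sy h24)) (Or.inr (Or.inr
                            (Or.inr h56)))
                        · exact n4 6 0 2 3 5 (by decide) (fun t => h06 (sy t)) (fun t => h26 (sy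
                            t)) (fun t => h36 (sy t)) (fun t => h56 (sy t))
                      · exact n4 3 1 4 5 6 (by decide) (fun t => h13 (sy t)) h34 h35 h36
                  · exact n4 6 0 2 3 4 (by decide) (fun t => h06 (sy t)) (fun t => h26 (sy t))
                      (fun t => h36 (sy t)) (fun t => h46 (sy t))
            · exact n4 2 1 4 5 6 (by decide) (fun t => h12 (sy t)) h24 h25 h26
          · exact n4 2 1 3 5 6 (by decide) (fun t => h12 (sy t)) h23 h25 h26
  · by_cases h26 : a 2 6
    · by_cases h15 : a 1 5
      · by_cases h36 : a 3 6
        · by_cases h46 : a 4 6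
          · by_cases h23 : a 2 3
            · exact p2 4 6 0 2 3 1 (by decide) h46 h02 h03 h23 (Or.inl (sy h04)) (Or.inr (sy
                h26)) (Or.inr (sy h36))
            · by_cases h12 : a 1 2
              · by_cases h13 : a 1 3
                · exact p2 3 6 0 1 2 4 (by decide) h36 h01 h02 h12 (Or.inl (sy h03)) (Or.inl (sy
                    h13)) (Or.inr (sy h26))
                · by_cases h34 : a 3 4
                  · exact p2 2 6 0 3 4 1 (by decide) h26 h03 h04 h34 (Or.inl (sy h02)) (Or.inr
                      (sy h36)) (Or.inr (sy h46))
                  · by_cases h35 : a 3 5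
                    · exact p3 1 5 2 6 0 3 4 (by decide) h15 h26 h03 (Or.inl (sy h01)) (Or.inr
                        (sy h35)) (Or.inl (sy h02)) (Or.inr (sy h36)) (Or.inl h12)
                    · exact n4 3 1 2 4 5 (by decide) (fun t => h13 (sy t)) (fun t => h23 (sy t))
                        h34 h35
              · by_cases h24 : a 2 4
                · exact p2 3 6 0 2 4 1 (by decide) h36 h02 h04 h24 (Or.inl (sy h03)) (Or.inr (sy
                    h26)) (Or.inr (sy h46))
                · by_cases h25 : a 2 5
                  · by_cases h13 : a 1 3
                    · exact p3 1 5 2 6 0 3 4 (by decide) h15 h26 h03 (Or.inl (sy h01)) (Or.inl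
                        h13) (Or.inl (sy h02)) (Or.inr (sy h36)) (Or.inr (Or.inr (Or.inl (sy
                        h25))))
                    · by_cases h14 : a 1 4
                      · exact p3 1 5 2 6 0 4 3 (by decide) h15 h26 h04 (Or.inl (sy h01)) (Or.inl
                          h14) (Or.inl (sy h02)) (Or.inr (sy h46)) (Or.inr (Or.inr (Or.inl (sy
                          h25))))
                      · exact n4 1 2 3 4 6 (by decide) h12 h13 h14 h16
                  · exact n4 2 1 3 4 5 (by decide) (fun t => h12 (sy t)) h23 h24 h25
          · by_cases h56 : a 5 6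
            · by_cases h12 : a 1 2
              · exact p3 0 3 1 5 2 6 4 (by decide) h03 h15 h26 (Or.inl h02) (Or.inr h36) (Or.inl
                  h12) (Or.inr h56) (Or.inl h01)
              · by_cases h13 : a 1 3
                · exact p3 0 2 1 5 3 6 4 (by decide) h02 h15 h36 (Or.inl h03) (Or.inr h26)
                    (Or.inl h13) (Or.inr h56) (Or.inl h01)
                · by_cases h14 : a 1 4
                  · by_cases h23 : a 2 3
                    · exact p3 0 1 5 6 2 3 4 (by decide) h01 h56 h23 (Or.inl h02) (Or.inl h03)
                        (Or.inr (sy h26)) (Or.inr (sy h36)) (Or.inr (Or.inr (Or.inl h15)))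
                    · by_cases h24 : a 2 4
                      · exact p3 1 5 2 6 0 4 3 (by decide) h15 h26 h04 (Or.inl (sy h01)) (Or.inl
                          h14) (Or.inl (sy h02)) (Or.inl h24) (Or.inr (Or.inr (Or.inr h56)))
                      · by_cases h25 : a 2 5
                        · exact p3 0 1 3 6 2 5 4 (by decide) h01 h36 h25 (Or.inl h02) (Or.inr
                            h15) (Or.inr (sy h26)) (Or.inr (sy h56)) (Or.inl h03)
                        · exact n4 2 1 3 4 5 (by decide) (fun t => h12 (sy t)) h23 h24 h25
                  · exact n4 1 2 3 4 6 (by decide) h12 h13 h14 h16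
            · exact n4 6 0 1 4 5 (by decide) (fun t => h06 (sy t)) (fun t => h16 (sy t)) (fun t
                => h46 (sy t)) (fun t => h56 (sy t))
        · by_cases h46 : a 4 6
          · by_cases h56 : a 5 6
            · by_cases h12 : a 1 2
              · exact p3 0 4 1 5 2 6 3 (by decide) h04 h15 h26 (Or.inl h02) (Or.inr h46) (Or.inl
                  h12) (Or.inr h56) (Or.inl h01)
              · by_cases h13 : a 1 3
                · by_cases h23 : a 2 3
                  · exact p3 1 5 2 6 0 3 4 (by decide) h15 h26 h03 (Or.inl (sy h01)) (Or.inl h13)
                      (Or.inl (sy h02)) (Or.inl h23) (Or.inr (Or.inr (Or.inr h56)))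
                  · by_cases h24 : a 2 4
                    · exact p3 0 1 5 6 2 4 3 (by decide) h01 h56 h24 (Or.inl h02) (Or.inl h04)
                        (Or.inr (sy h26)) (Or.inr (sy h46)) (Or.inr (Or.inr (Or.inl h15)))
                    · by_cases h25 : a 2 5
                      · exact p3 0 1 4 6 2 5 3 (by decide) h01 h46 h25 (Or.inl h02) (Or.inr h15)
                          (Or.inr (sy h26)) (Or.inr (sy h56)) (Or.inl h04)
                      · exact n4 2 1 3 4 5 (by decide) (fun t => h12 (sy t)) h23 h24 h25
                · by_cases h14 : a 1 4
                  · exact p3 0 2 1 5 4 6 3 (by decide) h02 h15 h46 (Or.inl h04) (Or.inr h26)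
                      (Or.inl h14) (Or.inr h56) (Or.inl h01)
                  · exact n4 1 2 3 4 6 (by decide) h12 h13 h14 h16
            · exact n4 6 0 1 3 5 (by decide) (fun t => h06 (sy t)) (fun t => h16 (sy t)) (fun t
                => h36 (sy t)) (fun t => h56 (sy t))
          · exact n4 6 0 1 3 4 (by decide) (fun t => h06 (sy t)) (fun t => h16 (sy t)) (fun t =>
              h36 (sy t)) (fun t => h46 (sy t))
      · by_cases h12 : a 1 2
        · by_cases h13 : a 1 3
          · by_cases h23 : a 2 3
            · exact p1 0 1 2 3 4 (by decide) h01 h02 h03 h12 h13 h23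
            · by_cases h36 : a 3 6
              · exact p2 3 6 0 1 2 4 (by decide) h36 h01 h02 h12 (Or.inl (sy h03)) (Or.inl (sy
                  h13)) (Or.inr (sy h26))
              · by_cases h34 : a 3 4
                · by_cases h46 : a 4 6
                  · exact p3 1 2 4 6 0 3 5 (by decide) h12 h46 h03 (Or.inl (sy h01)) (Or.inl h13)
                      (Or.inl (sy h04)) (Or.inl (sy h34)) (Or.inr (Or.inr (Or.inr h26)))
                  · exact n4 6 0 1 3 4 (by decide) (fun t => h06 (sy t)) (fun t => h16 (sy t))
                      (fun t => h36 (sy t)) (fun t => h46 (sy t))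
                · by_cases h35 : a 3 5
                  · by_cases h56 : a 5 6
                    · exact p3 2 6 3 5 0 1 4 (by decide) h26 h35 h01 (Or.inl (sy h02)) (Or.inl
                        (sy h12)) (Or.inl (sy h03)) (Or.inl (sy h13)) (Or.inr (Or.inr (Or.inr (sy
                        h56))))
                    · exact n4 6 0 1 3 5 (by decide) (fun t => h06 (sy t)) (fun t => h16 (sy t))
                        (fun t => h36 (sy t)) (fun t => h56 (sy t))
                  · exact n4 3 2 4 5 6 (by decide) (fun t => h23 (sy t)) h34 h35 h36
          · by_cases h14 : a 1 4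
            · by_cases h24 : a 2 4
              · exact p1 0 1 2 4 3 (by decide) h01 h02 h04 h12 h14 h24
              · by_cases h46 : a 4 6
                · exact p2 4 6 0 1 2 3 (by decide) h46 h01 h02 h12 (Or.inl (sy h04)) (Or.inl (sy
                    h14)) (Or.inr (sy h26))
                · by_cases h34 : a 3 4
                  · by_cases h36 : a 3 6
                    · exact p3 1 2 3 6 0 4 5 (by decide) h12 h36 h04 (Or.inl (sy h01)) (Or.inl
                        h14) (Or.inl (sy h03)) (Or.inl h34) (Or.inr (Or.inr (Or.inr h26)))
                    · exact n4 6 0 1 3 4 (by decide) (fun t => h06 (sy t)) (fun t => h16 (sy t))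
                        (fun t => h36 (sy t)) (fun t => h46 (sy t))
                  · by_cases h45 : a 4 5
                    · by_cases h56 : a 5 6
                      · exact p3 2 6 4 5 0 1 3 (by decide) h26 h45 h01 (Or.inl (sy h02)) (Or.inl
                          (sy h12)) (Or.inl (sy h04)) (Or.inl (sy h14)) (Or.inr (Or.inr (Or.inr
                          (sy h56))))
                      · exact n4 6 0 1 4 5 (by decide) (fun t => h06 (sy t)) (fun t => h16 (sy
                          t)) (fun t => h46 (sy t)) (fun t => h56 (sy t))
                    · exact n4 4 2 3 5 6 (by decide) (fun t => h24 (sy t)) (fun t => h34 (sy t))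
                        h45 h46
            · exact n4 1 3 4 5 6 (by decide) h13 h14 h15 h16
        · by_cases h13 : a 1 3
          · by_cases h14 : a 1 4
            · by_cases h34 : a 3 4
              · exact p1 0 1 3 4 2 (by decide) h01 h03 h04 h13 h14 h34
              · by_cases h36 : a 3 6
                · by_cases h24 : a 2 4
                  · exact p3 1 3 2 6 0 4 5 (by decide) h13 h26 h04 (Or.inl (sy h01)) (Or.inl h14)
                      (Or.inl (sy h02)) (Or.inl h24) (Or.inr (Or.inr (Or.inr h36)))
                  · by_cases h46 : a 4 6
                    · exact p2 4 6 0 1 3 2 (by decide) h46 h01 h03 h13 (Or.inl (sy h04)) (Or.inl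
                        (sy h14)) (Or.inr (sy h36))
                    · by_cases h45 : a 4 5
                      · by_cases h56 : a 5 6
                        · exact p3 3 6 4 5 0 1 2 (by decide) h36 h45 h01 (Or.inl (sy h03))
                            (Or.inl (sy h13)) (Or.inl (sy h04)) (Or.inl (sy h14)) (Or.inr (Or.inr
                            (Or.inr (sy h56))))
                        · exact n4 6 0 1 4 5 (by decide) (fun t => h06 (sy t)) (fun t => h16 (sy
                            t)) (fun t => h46 (sy t)) (fun t => h56 (sy t))
                      · exact n4 4 2 3 5 6 (by decide) (fun t => h24 (sy t)) (fun t => h34 (sy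
                          t)) h45 h46
                · by_cases h46 : a 4 6
                  · by_cases h23 : a 2 3
                    · exact p3 1 3 2 6 0 4 5 (by decide) h13 h26 h04 (Or.inl (sy h01)) (Or.inl
                        h14) (Or.inl (sy h02)) (Or.inr (sy h46)) (Or.inr (Or.inr (Or.inl (sy
                        h23))))
                    · by_cases h35 : a 3 5
                      · by_cases h56 : a 5 6
                        · exact p3 3 5 4 6 0 1 2 (by decide) h35 h46 h01 (Or.inl (sy h03))
                            (Or.inl (sy h13)) (Or.inl (sy h04)) (Or.inl (sy h14)) (Or.inr (Or.inr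
                            (Or.inr h56)))
                        · exact n4 6 0 1 3 5 (by decide) (fun t => h06 (sy t)) (fun t => h16 (sy
                            t)) (fun t => h36 (sy t)) (fun t => h56 (sy t))
                      · exact n4 3 2 4 5 6 (by decide) (fun t => h23 (sy t)) h34 h35 h36
                  · exact n4 6 0 1 3 4 (by decide) (fun t => h06 (sy t)) (fun t => h16 (sy t))
                      (fun t => h36 (sy t)) (fun t => h46 (sy t))
            · exact n4 1 2 4 5 6 (by decide) h12 h14 h15 h16
          · exact n4 1 2 3 5 6 (by decide) h12 h13 h15 h16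
    · by_cases h36 : a 3 6
      · by_cases h46 : a 4 6
        · by_cases h56 : a 5 6
          · by_cases h12 : a 1 2
            · by_cases h13 : a 1 3
              · by_cases h23 : a 2 3
                · exact p1 0 1 2 3 4 (by decide) h01 h02 h03 h12 h13 h23
                · by_cases h24 : a 2 4
                  · exact p3 1 2 3 6 0 4 5 (by decide) h12 h36 h04 (Or.inl (sy h01)) (Or.inr h24)
                      (Or.inl (sy h03)) (Or.inr (sy h46)) (Or.inl h13)
                  · by_cases h25 : a 2 5
                    · exact p3 2 5 3 6 0 1 4 (by decide) h25 h36 h01 (Or.inl (sy h02)) (Or.inl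
                        (sy h12)) (Or.inl (sy h03)) (Or.inl (sy h13)) (Or.inr (Or.inr (Or.inr
                        h56)))
                    · exact n4 2 3 4 5 6 (by decide) h23 h24 h25 h26
              · by_cases h14 : a 1 4
                · by_cases h23 : a 2 3
                  · exact p3 1 2 3 6 0 4 5 (by decide) h12 h36 h04 (Or.inl (sy h01)) (Or.inl h14)
                      (Or.inl (sy h03)) (Or.inr (sy h46)) (Or.inr (Or.inr (Or.inl h23)))
                  · by_cases h24 : a 2 4
                    · exact p1 0 1 2 4 3 (by decide) h01 h02 h04 h12 h14 h24
                    · by_cases h25 : a 2 5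
                      · exact p3 2 5 4 6 0 1 3 (by decide) h25 h46 h01 (Or.inl (sy h02)) (Or.inl
                          (sy h12)) (Or.inl (sy h04)) (Or.inl (sy h14)) (Or.inr (Or.inr (Or.inr
                          h56)))
                      · exact n4 2 3 4 5 6 (by decide) h23 h24 h25 h26
                · by_cases h15 : a 1 5
                  · by_cases h23 : a 2 3
                    · exact p3 1 5 3 6 0 2 4 (by decide) h15 h36 h02 (Or.inl (sy h01)) (Or.inl
                        h12) (Or.inl (sy h03)) (Or.inl (sy h23)) (Or.inr (Or.inr (Or.inr h56)))
                    · by_cases h24 : a 2 4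
                      · exact p3 1 5 4 6 0 2 3 (by decide) h15 h46 h02 (Or.inl (sy h01)) (Or.inl
                          h12) (Or.inl (sy h04)) (Or.inl (sy h24)) (Or.inr (Or.inr (Or.inr h56)))
                      · by_cases h25 : a 2 5
                        · exact p3 0 3 5 6 1 2 4 (by decide) h03 h56 h12 (Or.inl h01) (Or.inl
                            h02) (Or.inl (sy h15)) (Or.inl (sy h25)) (Or.inr (Or.inr (Or.inr
                            h36)))
                        · exact n4 2 3 4 5 6 (by decide) h23 h24 h25 h26
                  · exact n4 1 3 4 5 6 (by decide) h13 h14 h15 h16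
            · by_cases h13 : a 1 3
              · by_cases h14 : a 1 4
                · exact p2 4 6 0 1 3 2 (by decide) h46 h01 h03 h13 (Or.inl (sy h04)) (Or.inl (sy
                    h14)) (Or.inr (sy h36))
                · by_cases h15 : a 1 5
                  · exact p3 0 4 1 5 3 6 2 (by decide) h04 h15 h36 (Or.inl h03) (Or.inr h46)
                      (Or.inl h13) (Or.inr h56) (Or.inl h01)
                  · exact n4 1 2 4 5 6 (by decide) h12 h14 h15 h16
              · by_cases h14 : a 1 4
                · by_cases h15 : a 1 5
                  · exact p3 0 3 1 5 4 6 2 (by decide) h03 h15 h46 (Or.inl h04) (Or.inr h36)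
                      (Or.inl h14) (Or.inr h56) (Or.inl h01)
                  · exact n4 1 2 3 5 6 (by decide) h12 h13 h15 h16
                · exact n4 1 2 3 4 6 (by decide) h12 h13 h14 h16
          · exact n4 6 0 1 2 5 (by decide) (fun t => h06 (sy t)) (fun t => h16 (sy t)) (fun t =>
              h26 (sy t)) (fun t => h56 (sy t))
        · exact n4 6 0 1 2 4 (by decide) (fun t => h06 (sy t)) (fun t => h16 (sy t)) (fun t =>
            h26 (sy t)) (fun t => h46 (sy t))
      · exact n4 6 0 1 2 3 (by decide) (fun t => h06 (sy t)) (fun t => h16 (sy t)) (fun t => h26
          (sy t)) (fun t => h36 (sy t))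

end Pool.Agent.R7
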